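import Mathlib

/-!
# An obstruction to finite complete rewriting systems

Let `e` be an element of a monoid with certain sets `X`, `Z` of left and right divisors and a cocycle
`κ` with values in `ZMod 2` which is defined between `X` and `Z`. If every short middle factor of `e`
has an `X` on its left or a `Z` on its right, then a complete rewriting system with short rules makes all
loops of words representing `e` have trivial monodromy.
-/

set_option autoImplicit false

namespace Pool.Agent.W2helper28.FC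

open Relation

section Newman

variable {α : Type*} {r : α → α → Prop}

/-- Newman's lemma -/
theorem newman (hwf : WellFounded (fun b a => r a b))
    (hloc : ∀ a b c, r a b → r a c → ∃ d, ReflTransGen r b d ∧ ReflTransGen r c d) :
    ∀ a b c, ReflTransGen r a b → ReflTransGen r a c →
      ∃ d, ReflTransGen r b d ∧ ReflTransGen r c d := by
  intro a
  induction a using hwf.induction with
  | _ a ih =>
    intro b c hab hac
    rcases hab.cases_head with rfl | ⟨b1, hb1, hb⟩
    · exact ⟨c, hac, ReflTransGen.refl⟩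
    rcases hac.cases_head with rfl | ⟨c1, hc1, hc⟩
    · exact ⟨b, ReflTransGen.refl, ReflTransGen.head hb1 hb⟩
    obtain ⟨d, hd1, hd2⟩ := hloc a b1 c1 hb1 hc1
    obtain ⟨x, hx1, hx2⟩ := ih b1 hb1 b d hb hd1
    obtain ⟨y, hy1, hy2⟩ := ih c1 hc1 x c (hd2.trans hx2) hc
    exact ⟨y, hx1.trans hy1, hy2⟩

/-- equivalent elements are joinable -/
theorem join_of_eqv (hconf : ∀ a b c, ReflTransGen r a b → ReflTransGen r a c →
      ∃ d, ReflTransGen r b d ∧ ReflTransGen r c d) {a b : α} (h : EqvGen r a b) :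
    ∃ d, ReflTransGen r a d ∧ ReflTransGen r b d := by
  induction h with
  | rel x y h => exact ⟨y, ReflTransGen.single h, ReflTransGen.refl⟩
  | refl x => exact ⟨x, ReflTransGen.refl, ReflTransGen.refl⟩
  | symm x y _ ih =>
    obtain ⟨d, h1, h2⟩ := ih
    exact ⟨d, h2, h1⟩
  | trans x y z _ _ ih1 ih2 =>
    obtain ⟨d, h1, h2⟩ := ih1
    obtain ⟨d', h3, h4⟩ := ih2
    obtain ⟨d'', h5, h6⟩ := hconf y d d' h2 h3
    exact ⟨d'', h1.trans h5, h4.trans h6⟩

/-- normal forms exist -/
theorem exists_nf (hwf : WellFounded (fun b a => r a b)) (a : α) :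
    ∃ b, ReflTransGen r a b ∧ ∀ c, ¬ r b c := by
  induction a using hwf.induction with
  | _ a ih =>
    by_cases h : ∃ c, r a c
    · obtain ⟨c, hc⟩ := h
      obtain ⟨b, hb, hb'⟩ := ih c hc
      exact ⟨b, ReflTransGen.head hc hb, hb'⟩
    · exact ⟨a, ReflTransGen.refl, fun c hc => h ⟨c, hc⟩⟩

end Newman

section Words

variable {A : Type*} (R : Set (List A × List A))

/-- one rewriting step -/
def Step (w w' : List A) : Prop :=
  ∃ u v l r, (l, r) ∈ R ∧ w = u ++ l ++ v ∧ w' = u ++ r ++ v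

variable {R}

theorem Step.ctx {w w' : List A} (h : Step R w w') (u v : List A) :
    Step R (u ++ w ++ v) (u ++ w' ++ v) := by
  obtain ⟨u', v', l, r, h1, rfl, rfl⟩ := h
  exact ⟨u ++ u', v' ++ v, l, r, h1, by simp, by simp⟩

variable {M : Type*} [Monoid M] (π : A → M)

/-- the value of a word -/
def pv (w : List A) : M := (w.map π).prod

@[simp] theorem pv_nil : pv π ([] : List A) = 1 := rfl
@[simp] theorem pv_cons (a : A) (w : List A) : pv π (a :: w) = π a * pv π w := by simp [pv]
@[simp] theorem pv_append (u v : List A) : pv π (u ++ v) = pv π u * pv π v := by simp [pv]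

variable (X Z : M → Prop) (κ : M → M → ZMod 2)

open Classical in
/-- `κ` between the shortest initial part in `X` and the rest -/
noncomputable def gg : List A → M → ZMod 2
  | [], s => if X s then κ s 1 else 0
  | a :: w, s => if X s then κ s (pv π (a :: w)) else gg w (s * π a)

variable {π X Z κ}

theorem gg_X (w : List A) {s : M} (h : X s) : gg π X κ w s = κ s (pv π w) := by
  cases w with
  | nil => simp [gg, h]
  | cons a w => simp [gg, h]

theorem gg_nX {s : M} (h : ¬ X s) : gg π X κ [] s = 0 := by simp [gg, h]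

theorem gg_nX_cons {s : M} (h : ¬ X s) (a : A) (w : List A) :
    gg π X κ (a :: w) s = gg π X κ w (s * π a) := by simp [gg, h]

theorem gg_A {e : M} (mono : ∀ s p t, s * p * t = e → X s → X (s * p)) :
    ∀ (u w : List A) (s : M), (∃ t, s * pv π u * t = e) → ¬ X (s * pv π u) →
      gg π X κ (u ++ w) s = gg π X κ w (s * pv π u) := by
  intro u
  induction u with
  | nil => intro w s _ _; simp
  | cons a u ih =>
    intro w s ⟨t, ht⟩ h
    have h1 : ¬ X s := fun h1 => h (mono s _ t ht h1)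
    rw [List.cons_append, gg_nX_cons h1, ih]
    · simp [mul_assoc]
    · exact ⟨t, by rw [← ht]; simp [mul_assoc]⟩
    · intro h2
      apply h
      simpa [mul_assoc] using h2

theorem gg_B : ∀ (u : List A) (s : M), X (s * pv π u) →
    ∃ s0 p0, X s0 ∧ s0 * p0 = s * pv π u ∧ ∀ w, gg π X κ (u ++ w) s = κ s0 (p0 * pv π w) := by
  intro u
  induction u with
  | nil =>
    intro s h
    refine ⟨s, 1, by simpa using h, by simp, fun w => ?_⟩
    rw [List.nil_append, gg_X w (by simpa using h), one_mul]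
  | cons a u ih =>
    intro s h
    by_cases h1 : X s
    · refine ⟨s, pv π (a :: u), h1, rfl, fun w => ?_⟩
      rw [gg_X _ h1, pv_append]
    · obtain ⟨s0, p0, h2, h3, h4⟩ := ih (s * π a) (by simpa [mul_assoc] using h)
      refine ⟨s0, p0, h2, by rw [h3]; simp [mul_assoc], fun w => ?_⟩
      rw [List.cons_append, gg_nX_cons h1, h4]

variable (π X κ) in
open Classical in
/-- the change of `gg` under the application of a rule after `s` -/
noncomputable def dl (s : M) (l r : List A) : ZMod 2 :=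
  if X s then 0 else gg π X κ r s - gg π X κ l s

theorem dl_X {s : M} (h : X s) (l r : List A) : dl π X κ s l r = 0 := by simp [dl, h]
theorem dl_nX {s : M} (h : ¬ X s) (l r : List A) :
    dl π X κ s l r = gg π X κ r s - gg π X κ l s := by simp [dl, h]

/-- telescoping -/
theorem dl_tel {e : M} (mono : ∀ s p t, s * p * t = e → X s → X (s * p))
    (coc : ∀ s p p' t, s * p * p' * t = e → X s → Z t → κ s (p * p') = κ s p + κ (s * p) p')
    {s t : M} (_ : ¬ X s) (ht : Z t) (c0 c1 l r : List A) (hlr : pv π l = pv π r)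
    (he : s * pv π (c0 ++ (l ++ c1)) * t = e) :
    dl π X κ (s * pv π c0) l r =
      gg π X κ (c0 ++ (r ++ c1)) s - gg π X κ (c0 ++ (l ++ c1)) s := by
  by_cases h0 : X (s * pv π c0)
  · obtain ⟨s0, p0, h2, h3, h4⟩ := gg_B (κ := κ) c0 s h0
    rw [dl_X h0, h4, h4, pv_append, pv_append, hlr, sub_self]
  · have hdiv : ∃ t, s * pv π c0 * t = e := ⟨pv π l * pv π c1 * t, by rw [← he]; simp [mul_assoc]⟩
    rw [gg_A mono c0 _ s hdiv h0, gg_A mono c0 _ s hdiv h0, dl_nX h0]
    set s' := s * pv π c0 with hs'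
    have he' : s' * pv π l * pv π c1 * t = e := by rw [← he, hs']; simp [mul_assoc]
    by_cases h1 : X (s' * pv π l)
    · have h1' : X (s' * pv π r) := hlr ▸ h1
      obtain ⟨s0, p0, h2, h3, h4⟩ := gg_B (κ := κ) l s' h1
      obtain ⟨s1, p1, h5, h6, h7⟩ := gg_B (κ := κ) r s' h1'
      have e1 : gg π X κ l s' = κ s0 p0 := by
        have := h4 []
        simpa using this
      have e2 : gg π X κ r s' = κ s1 p1 := by
        have := h7 []
        simpa using this
      have e3 := coc s0 p0 (pv π c1) t (by rw [h3, he']) h2 ht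
      have e4 := coc s1 p1 (pv π c1) t (by rw [h6, ← hlr, he']) h5 ht
      rw [h4, h7, e1, e2, e3, e4, h3, h6, hlr]
      ring
    · have h1' : ¬ X (s' * pv π r) := hlr ▸ h1
      have d1 : ∃ t, s' * pv π l * t = e := ⟨pv π c1 * t, by rw [← he']; simp [mul_assoc]⟩
      have d2 : ∃ t, s' * pv π r * t = e := ⟨pv π c1 * t, by rw [← he', hlr]; simp [mul_assoc]⟩
      have e1 : gg π X κ l s' = 0 := by
        have := gg_A (κ := κ) mono l [] s' d1 h1
        rw [List.append_nil] at this
        rw [this, gg_nX h1]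
      have e2 : gg π X κ r s' = 0 := by
        have := gg_A (κ := κ) mono r [] s' d2 h1'
        rw [List.append_nil] at this
        rw [this, gg_nX h1']
      rw [gg_A mono l c1 s' d1 h1, gg_A mono r c1 s' d2 h1', e1, e2, hlr]
      ring

variable (R π X κ) in
/-- the lifted rewriting relation on the words which represent `e` -/
def LS (e : M) (p q : List A × ZMod 2) : Prop :=
  ∃ u v l r, (l, r) ∈ R ∧ p.1 = u ++ l ++ v ∧ q.1 = u ++ r ++ v ∧ pv π p.1 = e ∧
    q.2 = p.2 + dl π X κ (pv π u) l r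

variable (R π X Z κ) in
/-- the hypotheses -/
structure Obs (e : M) (B : ℕ) : Prop where
  sound : ∀ l r, (l, r) ∈ R → pv π l = pv π r
  len : ∀ l r, (l, r) ∈ R → l.length ≤ B
  mono : ∀ s p t, s * p * t = e → X s → X (s * p)
  short : ∀ c : List A, c.length ≤ 2 * B → ∀ s t, s * pv π c * t = e → X s ∨ Z t
  coc : ∀ s p p' t, s * p * p' * t = e → X s → Z t → κ s (p * p') = κ s p + κ (s * p) p'
  wf : WellFounded (fun b a => Step R a b)
  conf : ∀ a b c, ReflTransGen (Step R) a b → ReflTransGen (Step R) a c →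
    ∃ d, ReflTransGen (Step R) b d ∧ ReflTransGen (Step R) c d

namespace Obs

variable {e : M} {B : ℕ}

theorem step_pv (O : Obs R π X Z κ e B) {w w' : List A} (h : Step R w w') : pv π w = pv π w' := by
  obtain ⟨u, v, l, r, h1, rfl, rfl⟩ := h
  simp [O.sound l r h1]

theorem eqv_pv (O : Obs R π X Z κ e B) {w w' : List A} (h : EqvGen (Step R) w w') :
    pv π w = pv π w' := by
  induction h with
  | rel x y h => exact O.step_pv h
  | refl x => rfl
  | symm x y _ ih => exact ih.symm
  | trans x y z _ _ ih1 ih2 => exact ih1.trans ih2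

theorem rtg_pv (O : Obs R π X Z κ e B) {w w' : List A} (h : ReflTransGen (Step R) w w') :
    pv π w = pv π w' := by
  induction h with
  | refl => rfl
  | tail _ h ih => exact ih.trans (O.step_pv h)

end Obs

open Classical in
variable (π X κ) in
/-- the potential in the context of `s` -/
noncomputable def Pot (s : M) (c : List A) : ZMod 2 := if X s then 0 else gg π X κ c s

theorem Pot_X {s : M} (h : X s) (c : List A) : Pot π X κ s c = 0 := by simp [Pot, h]
theorem Pot_nX {s : M} (h : ¬ X s) (c : List A) : Pot π X κ s c = gg π X κ c s := by simp [Pot, h]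

namespace Obs

variable {e : M} {B : ℕ}

/-- a step inside a context changes the sum by the potential -/
theorem dl_pot (O : Obs R π X Z κ e B) {s t : M} (hst : X s ∨ Z t) (c0 c1 l r : List A)
    (hlr : pv π l = pv π r) (he : s * pv π (c0 ++ l ++ c1) * t = e) :
    dl π X κ (s * pv π c0) l r =
      Pot π X κ s (c0 ++ r ++ c1) - Pot π X κ s (c0 ++ l ++ c1) := by
  by_cases hs : X s
  · rw [Pot_X hs, Pot_X hs, sub_self, dl_X]
    exact O.mono s _ (pv π l * pv π c1 * t) (by rw [← he]; simp [mul_assoc]) hs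
  · have ht : Z t := hst.resolve_left hs
    rw [Pot_nX hs, Pot_nX hs, List.append_assoc, List.append_assoc]
    exact dl_tel O.mono O.coc hs ht c0 c1 l r hlr (by rw [← he]; simp [mul_assoc])

theorem LS_step (O : Obs R π X Z κ e B) {u v c d : List A} (h : Step R c d)
    (hst : X (pv π u) ∨ Z (pv π v)) (he : pv π (u ++ c ++ v) = e) (k : ZMod 2) :
    LS R π X κ e (u ++ c ++ v, k)
      (u ++ d ++ v, k + (Pot π X κ (pv π u) d - Pot π X κ (pv π u) c)) := by
  obtain ⟨c0, c1, l, r, h1, rfl, rfl⟩ := h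
  refine ⟨u ++ c0, c1 ++ v, l, r, h1, by simp, by simp, he, ?_⟩
  rw [pv_append, O.dl_pot hst c0 c1 l r (O.sound l r h1) (by rw [← he]; simp [mul_assoc])]

theorem LS_path (O : Obs R π X Z κ e B) {u v c d : List A} (h : ReflTransGen (Step R) c d)
    (hst : X (pv π u) ∨ Z (pv π v)) (he : pv π (u ++ c ++ v) = e) (k : ZMod 2) :
    ReflTransGen (LS R π X κ e) (u ++ c ++ v, k)
      (u ++ d ++ v, k + (Pot π X κ (pv π u) d - Pot π X κ (pv π u) c)) := by
  induction h with
  | refl => rw [sub_self, add_zero]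
  | tail h1 h2 ih =>
    rename_i x y
    refine ReflTransGen.tail ih ?_
    have hx : pv π (u ++ x ++ v) = e := by
      rw [← he]; simp [O.rtg_pv h1]
    have := O.LS_step h2 hst hx (k + (Pot π X κ (pv π u) x - Pot π X κ (pv π u) c))
    convert this using 2
    ring

theorem LS_eqv (O : Obs R π X Z κ e B) {u v c d : List A} (h : EqvGen (Step R) c d)
    (hst : X (pv π u) ∨ Z (pv π v)) (he : pv π (u ++ c ++ v) = e) (k : ZMod 2) :
    EqvGen (LS R π X κ e) (u ++ c ++ v, k)
      (u ++ d ++ v, k + (Pot π X κ (pv π u) d - Pot π X κ (pv π u) c)) := by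
  induction h generalizing k with
  | rel x y h => exact EqvGen.rel _ _ (O.LS_step h hst he k)
  | refl x => rw [sub_self, add_zero]; exact EqvGen.refl _
  | symm x y h ih =>
    have hx : pv π (u ++ x ++ v) = e := by
      rw [← he]; simp [O.eqv_pv h]
    have := ih hx (k + (Pot π X κ (pv π u) x - Pot π X κ (pv π u) y))
    refine EqvGen.symm _ _ ?_
    convert this using 2
    ring
  | trans x y z h1 h2 ih1 ih2 =>
    have hy : pv π (u ++ y ++ v) = e := by
      rw [← he]; simp [O.eqv_pv h1]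
    refine EqvGen.trans _ _ _ (ih1 he k) ?_
    have := ih2 hy (k + (Pot π X κ (pv π u) y - Pot π X κ (pv π u) x))
    convert this using 2
    ring

/-- overlapping redexes -/
theorem LS_overlap (O : Obs R π X Z κ e B) {u v c c1 c2 : List A} (h1 : Step R c c1)
    (h2 : Step R c c2) (hc : c.length ≤ 2 * B) (he : pv π (u ++ c ++ v) = e) (k : ZMod 2) :
    ∃ d, ReflTransGen (LS R π X κ e)
        (u ++ c1 ++ v, k + (Pot π X κ (pv π u) c1 - Pot π X κ (pv π u) c)) d ∧
      ReflTransGen (LS R π X κ e)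
        (u ++ c2 ++ v, k + (Pot π X κ (pv π u) c2 - Pot π X κ (pv π u) c)) d := by
  obtain ⟨d, hd1, hd2⟩ := O.conf c c1 c2 (ReflTransGen.single h1) (ReflTransGen.single h2)
  have hst : X (pv π u) ∨ Z (pv π v) := O.short c hc _ _ (by rw [← he]; simp [mul_assoc])
  refine ⟨(u ++ d ++ v, k + (Pot π X κ (pv π u) d - Pot π X κ (pv π u) c)), ?_, ?_⟩
  · have := O.LS_path hd1 hst (by rw [← he]; simp [O.step_pv h1])
      (k + (Pot π X κ (pv π u) c1 - Pot π X κ (pv π u) c))
    convert this using 2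
    ring
  · have := O.LS_path hd2 hst (by rw [← he]; simp [O.step_pv h2])
      (k + (Pot π X κ (pv π u) c2 - Pot π X κ (pv π u) c))
    convert this using 2
    ring

/-- the case where the first redex starts first -/
theorem LS_peak (O : Obs R π X Z κ e B) {w : List A} {u1 v1 l1 r1 u2 v2 l2 r2 : List A}
    (k : ZMod 2) (hw : pv π w = e) (h1 : (l1, r1) ∈ R) (h2 : (l2, r2) ∈ R)
    (e1 : w = u1 ++ l1 ++ v1) (e2 : w = u2 ++ l2 ++ v2) (hlen : u1.length ≤ u2.length) :
    ∃ d, ReflTransGen (LS R π X κ e) (u1 ++ r1 ++ v1, k + dl π X κ (pv π u1) l1 r1) d ∧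
      ReflTransGen (LS R π X κ e) (u2 ++ r2 ++ v2, k + dl π X κ (pv π u2) l2 r2) d := by
  have e3 : u1 ++ (l1 ++ v1) = u2 ++ (l2 ++ v2) := by
    rw [← List.append_assoc, ← List.append_assoc, ← e1, ← e2]
  obtain ⟨m, rfl⟩ : ∃ m, u2 = u1 ++ m := by
    rcases List.append_eq_append_iff.1 e3 with ⟨m, hm, _⟩ | ⟨m, hm, _⟩
    · exact ⟨m, hm⟩
    · have : m = [] := by
        have := congrArg List.length hm
        rw [List.length_append] at this
        exact List.length_eq_zero_iff.1 (by omega)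
      subst this
      exact ⟨[], by simpa using hm.symm⟩
  rw [List.append_assoc] at e3
  have e4 := List.append_cancel_left e3
  have s1 := O.sound _ _ h1
  have s2 := O.sound _ _ h2
  have key : ∀ c v, l1 ++ v1 = c ++ v → (∃ c', c = l1 ++ c' ∧ v1 = c' ++ v) →
      (∃ c', c = m ++ l2 ++ c' ∧ v2 = c' ++ v) → c.length ≤ 2 * B →
      ∃ d, ReflTransGen (LS R π X κ e) (u1 ++ r1 ++ v1, k + dl π X κ (pv π u1) l1 r1) d ∧
      ReflTransGen (LS R π X κ e) (u1 ++ m ++ r2 ++ v2, k + dl π X κ (pv π (u1 ++ m)) l2 r2) d := by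
    rintro c v hcv ⟨c', hc', hv1⟩ ⟨c'', hc'', hv2⟩ hlen
    have he : pv π (u1 ++ c ++ v) = e := by
      rw [← hw, e1, List.append_assoc, ← hcv, List.append_assoc]
    have hst : X (pv π u1) ∨ Z (pv π v) := O.short c hlen _ _ (by rw [← he]; simp [mul_assoc])
    obtain ⟨d, hd1, hd2⟩ := O.LS_overlap (u := u1) (v := v) (c := c) (c1 := r1 ++ c')
      (c2 := m ++ r2 ++ c'') ⟨[], c', l1, r1, h1, by simp [hc'], by simp⟩
      ⟨m, c'', l2, r2, h2, hc'', rfl⟩ hlen he k
    refine ⟨d, ?_, ?_⟩
    · convert hd1 using 2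
      · rw [hv1]; simp
      · congr 1
        have := O.dl_pot (s := pv π u1) (t := pv π v) hst [] c' l1 r1 s1
          (by rw [← he, hc']; simp [mul_assoc])
        simp only [pv_nil, mul_one, List.nil_append] at this
        rw [this, hc']
    · convert hd2 using 2
      · rw [hv2]; simp
      · congr 1
        have := O.dl_pot (s := pv π u1) (t := pv π v) hst m c'' l2 r2 s2
          (by rw [← he, hc'']; simp [mul_assoc])
        rw [pv_append, this, hc'']
  have hl1 := O.len _ _ h1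
  have hl2 := O.len _ _ h2
  rcases List.append_eq_append_iff.1 e4 with ⟨q, hq1, hq2⟩ | ⟨q, hq1, hq2⟩
  · -- disjoint: m = l1 ++ q, v1 = q ++ (l2 ++ v2)
    subst hq1 hq2
    refine ⟨(u1 ++ r1 ++ q ++ r2 ++ v2, k + dl π X κ (pv π u1) l1 r1 +
      dl π X κ (pv π (u1 ++ r1 ++ q)) l2 r2), ?_, ?_⟩
    · apply ReflTransGen.single
      refine ⟨u1 ++ r1 ++ q, v2, l2, r2, h2, by simp, rfl, ?_, rfl⟩
      rw [← hw, e1]
      simp [s1]
    · apply ReflTransGen.single
      refine ⟨u1, q ++ r2 ++ v2, l1, r1, h1, by simp, by simp, ?_, ?_⟩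
      · rw [← hw, e1]
        simp [s2]
      · have : pv π (u1 ++ (l1 ++ q)) = pv π (u1 ++ r1 ++ q) := by simp [s1, mul_assoc]
        simp only [this]
        ring
  · -- l1 = m ++ q, l2 ++ v2 = q ++ v1
    rcases List.append_eq_append_iff.1 hq2 with ⟨q', hq3, hq4⟩ | ⟨q', hq3, hq4⟩
    · -- q = l2 ++ q', v2 = q' ++ v1
      subst hq3 hq4 hq1
      refine key (m ++ (l2 ++ q')) v1 rfl ⟨[], by simp, by simp⟩ ⟨q', by simp, rfl⟩ ?_
      omega
    · -- l2 = q ++ q', v1 = q' ++ v2
      subst hq1 hq3 hq4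
      refine key (m ++ (q ++ q')) v2 (by simp) ⟨q', by simp, rfl⟩ ⟨[], by simp, by simp⟩ ?_
      simp only [List.length_append] at hl1 hl2 ⊢
      omega

theorem LS_loc (O : Obs R π X Z κ e B) (a b c : List A × ZMod 2) (hab : LS R π X κ e a b)
    (hac : LS R π X κ e a c) :
    ∃ d, ReflTransGen (LS R π X κ e) b d ∧ ReflTransGen (LS R π X κ e) c d := by
  obtain ⟨w, k⟩ := a
  obtain ⟨b1, b2⟩ := b
  obtain ⟨c1, c2⟩ := c
  obtain ⟨u1, v1, l1, r1, h1, h2, h3, h4, h5⟩ := hab
  obtain ⟨u2, v2, l2, r2, g1, g2, g3, g4, g5⟩ := hac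
  simp only at h2 h3 h4 h5 g2 g3 g4 g5
  subst h3 g3 h5 g5
  rcases le_total u1.length u2.length with h | h
  · exact O.LS_peak k h4 h1 g1 h2 g2 h
  · obtain ⟨d, hd1, hd2⟩ := O.LS_peak k h4 g1 h1 g2 h2 h
    exact ⟨d, hd2, hd1⟩

theorem LS_wf (O : Obs R π X Z κ e B) : WellFounded (fun b a => LS R π X κ e a b) := by
  refine Subrelation.wf (r := InvImage (fun b a => Step R a b) Prod.fst) ?_ (InvImage.wf _ O.wf)
  rintro b a ⟨u, v, l, r, h1, h2, h3, _, _⟩
  exact ⟨u, v, l, r, h1, h2, h3⟩

/-- translation of the second coordinate -/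
theorem LS_shift {a b : List A × ZMod 2} (j : ZMod 2) (h : ReflTransGen (LS R π X κ e) a b) :
    ReflTransGen (LS R π X κ e) (a.1, a.2 + j) (b.1, b.2 + j) := by
  induction h with
  | refl => exact ReflTransGen.refl
  | tail _ h ih =>
    refine ReflTransGen.tail ih ?_
    obtain ⟨u, v, l, r, h1, h2, h3, h4, h5⟩ := h
    exact ⟨u, v, l, r, h1, h2, h3, h4, by simp only; rw [h5]; ring⟩

/-- **trivial monodromy** -/
theorem no_mono (O : Obs R π X Z κ e B) (w : List A) :
    ¬ EqvGen (LS R π X κ e) (w, 0) (w, 1) := by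
  intro h
  have hconf := newman O.LS_wf O.LS_loc
  obtain ⟨⟨N, σ⟩, hN, hirr⟩ := exists_nf O.LS_wf ((w, 0) : List A × ZMod 2)
  have hN' := LS_shift (1 : ZMod 2) hN
  simp only [zero_add] at hN'
  have hirr' : ∀ c, ¬ LS R π X κ e (N, σ + 1) c := by
    rintro ⟨c1, c2⟩ ⟨u, v, l, r, h1, h2, h3, h4, h5⟩
    exact hirr (u ++ r ++ v, σ + dl π X κ (pv π u) l r) ⟨u, v, l, r, h1, h2, rfl, h4, rfl⟩
  have e1 : EqvGen (LS R π X κ e) (N, σ) (N, σ + 1) := by
    have t1 : ∀ {a b : List A × ZMod 2}, ReflTransGen (LS R π X κ e) a b →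
        EqvGen (LS R π X κ e) a b := by
      intro a b h
      induction h with
      | refl => exact EqvGen.refl _
      | tail _ h ih => exact EqvGen.trans _ _ _ ih (EqvGen.rel _ _ h)
    exact EqvGen.trans _ _ _ (EqvGen.symm _ _ (t1 hN)) (EqvGen.trans _ _ _ h (t1 hN'))
  obtain ⟨d, hd1, hd2⟩ := join_of_eqv hconf e1
  have t2 : ∀ {a d : List A × ZMod 2}, (∀ c, ¬ LS R π X κ e a c) →
      ReflTransGen (LS R π X κ e) a d → d = a := by
    intro a d ha h
    rcases h.cases_head with rfl | ⟨b, hb, _⟩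
    · rfl
    · exact absurd hb (ha b)
  have h1 := t2 hirr hd1
  have h2 := t2 hirr' hd2
  rw [h1] at h2
  have h3 : σ = σ + 1 := congrArg Prod.snd h2
  have h4 : (1 : ZMod 2) = 0 := by
    have := h3
    nth_rewrite 1 [← add_zero σ] at this
    exact (add_left_cancel this).symm
  exact one_ne_zero h4

/-- **The obstruction.** The loop given by absorbing the difference of `a` and `b` on the left and on
the right. -/
theorem loop (O : Obs R π X Z κ e B) {x a b m z : List A}
    (he : pv π (x ++ (a ++ (m ++ z))) = e)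
    (hxX : X (pv π x)) (hZ : Z (pv π (m ++ z)))
    (h1 : EqvGen (Step R) (x ++ a) (x ++ b)) (h2 : EqvGen (Step R) (b ++ m) (m ++ b))
    (h3 : EqvGen (Step R) (b ++ z) (a ++ z)) (h4 : EqvGen (Step R) (m ++ a) (a ++ m))
    (hκ : κ (pv π x) (pv π a) ≠ κ (pv π x) (pv π b)) : False := by
  have hP : ∀ c, Pot π X κ (pv π x) c = 0 := fun c => Pot_X hxX c
  have hx1 : X (pv π (x ++ m)) := by
    have h5 := O.eqv_pv h4
    refine pv_append π x m ▸ O.mono _ _ (pv π a * pv π z) ?_ hxX
    rw [← he]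
    simp only [pv_append] at h5 ⊢
    rw [mul_assoc, ← mul_assoc (pv π m), h5, mul_assoc]
  have p1 := O.eqv_pv h1
  have p2 := O.eqv_pv h2
  have p3 := O.eqv_pv h3
  have p4 := O.eqv_pv h4
  simp only [pv_append] at p1 p2 p3 p4
  -- `x b m z` to `x a m z` on the left
  have heb : pv π (x ++ (b ++ (m ++ z))) = e := by
    rw [← he]; simp only [pv_append]
    rw [← mul_assoc, ← p1, mul_assoc]
  have L := O.LS_eqv (u := []) (v := m ++ z) h1 (Or.inr hZ) (by rw [← he]; simp [mul_assoc]) 0
  simp only [List.nil_append, pv_nil, zero_add] at L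
  have hd : Pot π X κ (1 : M) (x ++ b) - Pot π X κ (1 : M) (x ++ a) = 1 := by
    by_cases hX1 : X (1 : M)
    · -- the empty word is in `X`
      exfalso
      have c1 := O.coc 1 (pv π x) (pv π a) (pv π (m ++ z)) (by rw [← he]; simp [mul_assoc]) hX1 hZ
      have c2 := O.coc 1 (pv π x) (pv π b) (pv π (m ++ z)) (by rw [← heb]; simp [mul_assoc]) hX1 hZ
      rw [p1, c2, one_mul] at c1
      exact hκ (add_left_cancel c1).symm
    · rw [Pot_nX hX1, Pot_nX hX1]
      obtain ⟨s0, p0, g1, g2, g3⟩ := gg_B (κ := κ) x 1 (by simpa using hxX)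
      rw [g3, g3]
      rw [one_mul] at g2
      have c1 := O.coc s0 p0 (pv π a) (pv π (m ++ z)) (by rw [g2, ← he]; simp [mul_assoc]) g1 hZ
      have c2 := O.coc s0 p0 (pv π b) (pv π (m ++ z)) (by rw [g2, ← heb]; simp [mul_assoc]) g1 hZ
      rw [c1, c2, g2]
      have key : ∀ c p q : ZMod 2, p ≠ q → c + q - (c + p) = 1 := by decide
      exact key _ _ _ hκ
  rw [hd] at L
  -- the other way
  have L1 := O.LS_eqv (u := x) (v := z) h2 (Or.inl hxX) (by rw [← heb]; simp [mul_assoc]) 1
  have L2 := O.LS_eqv (u := x ++ m) (v := []) h3 (Or.inl hx1) (by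
    rw [← heb]; simp only [pv_append, pv_nil, mul_one]
    rw [mul_assoc, ← mul_assoc (pv π m), ← p2]; simp [mul_assoc]) 1
  have L3 := O.LS_eqv (u := x) (v := z) h4 (Or.inl hxX) (by
    rw [← he]; simp only [pv_append]
    rw [p4]; simp [mul_assoc]) 1
  rw [Pot_X hxX, Pot_X hxX, sub_self, add_zero] at L1 L3
  rw [Pot_X hx1, Pot_X hx1, sub_self, add_zero] at L2
  apply O.no_mono (x ++ a ++ (m ++ z))
  refine EqvGen.trans _ _ _ L ?_
  have w1 : x ++ b ++ (m ++ z) = x ++ (b ++ m) ++ z := by simp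
  have w2 : x ++ (m ++ b) ++ z = x ++ m ++ (b ++ z) ++ [] := by simp
  have w3 : x ++ m ++ (a ++ z) ++ [] = x ++ (m ++ a) ++ z := by simp
  have w4 : x ++ (a ++ m) ++ z = x ++ a ++ (m ++ z) := by simp
  rw [w1]
  refine EqvGen.trans _ _ _ L1 ?_
  rw [w2]
  refine EqvGen.trans _ _ _ L2 ?_
  rw [w3]
  refine EqvGen.trans _ _ _ L3 ?_
  rw [w4]
  exact EqvGen.refl _

end Obs

end Words

end Pool.Agent.W2helper28.FC
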