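import Pool.Agent.W2helper28.FC.Inv

/-!
# The two strands of an element of rank two

For a partition `m` of rank two and a partition `q` such that `m q` has rank two, `kp m q` says
whether the order of the two bottom blocks of `m` (given by their least elements) and the order of the
bottom blocks of `m q` correspond.
-/

set_option autoImplicit false

namespace Pool.Agent.W2helper28.FC

open Pool.Agent.H213
open Pool.Agent.H213.RkMonoid
open Pool.Agent.H213.PM
open Module

variable {n : ℕ}

theorem tb_iff' {m : PM n} {k i : Fin n} : tb m k i ↔ ∀ f g : Vec n, (f, g) ∈ m.C → f k = g i := by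
  unfold tb
  rw [r_iff]
  constructor
  · intro h f g hfg
    simpa using h (f, g) hfg
  · rintro h ⟨f, g⟩ hfg
    simpa using h f g hfg

theorem top_iff' {m : PM n} {k l : Fin n} :
    m.r (false, k) (false, l) ↔ ∀ f ∈ m.dom, f k = f l := by
  rw [r_iff]
  constructor
  · intro h f hf
    obtain ⟨g, hg⟩ := mem_dom.1 hf
    simpa using h (f, g) hg
  · rintro h ⟨f, g⟩ hfg
    simpa using h f (mem_dom.2 ⟨g, hfg⟩)

theorem mkd_iff {m : PM n} {i : Fin n} : mkd m i ↔ ∀ g ∈ m.cok, g i = 0 := by
  classical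
  constructor
  · rintro ⟨k, hk⟩ g hg
    have := tb_iff'.1 hk 0 g (mem_cok.1 hg)
    simpa using this.symm
  · intro h
    by_contra hn
    have h1 : ind m (true, i) false = 0 := by
      ext k
      have h2 : ¬ m.r (true, i) (false, k) := fun h2 => hn ⟨k, m.eqv.symm h2⟩
      simp [ind, h2]
    have h2 := ind_mem m (true, i)
    rw [h1] at h2
    have h3 := h _ (mem_cok.2 h2)
    have h4 : ind m (true, i) true i = 1 := by
      have : m.r (true, i) (true, i) := m.eqv.refl _
      simp [ind, this]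
    rw [h4] at h3
    exact one_ne_zero h3

/-- marked top points -/
def mkt (m : PM n) (k : Fin n) : Prop := ∃ i, tb m k i

theorem mkt_iff {m : PM n} {k : Fin n} : mkt m k ↔ ∀ f ∈ m.ker, f k = 0 := by
  classical
  constructor
  · rintro ⟨i, hi⟩ f hf
    have := tb_iff'.1 hi f 0 (mem_ker.1 hf)
    simpa using this
  · intro h
    by_contra hn
    have h1 : ind m (false, k) true = 0 := by
      ext i
      have h2 : ¬ m.r (false, k) (true, i) := fun h2 => hn ⟨i, h2⟩
      simp [ind, h2]
    have h2 := ind_mem m (false, k)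
    rw [h1] at h2
    have h3 := h _ (mem_ker.2 h2)
    have h4 : ind m (false, k) false k = 1 := by
      have : m.r (false, k) (false, k) := m.eqv.refl _
      simp [ind, this]
    rw [h4] at h3
    exact one_ne_zero h3

theorem Leq_cok {m m' : PM n} (h : (KR n).Leq m m') : m.cok = m'.cok := by
  obtain ⟨⟨u, hu⟩, ⟨v, hv⟩⟩ := h
  simp only [KR_op] at hu hv
  apply le_antisymm
  · rw [← hu]; exact cok_le_mul u m
  · rw [← hv]; exact cok_le_mul v m'

theorem Leq_im {m m' : PM n} (h : (KR n).Leq m m') : m.im = m'.im := by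
  obtain ⟨⟨u, hu⟩, ⟨v, hv⟩⟩ := h
  simp only [KR_op] at hu hv
  apply le_antisymm
  · rw [← hv]; exact im_mul_le v m'
  · rw [← hu]; exact im_mul_le u m

theorem Leq_mkd {m m' : PM n} (h : (KR n).Leq m m') (i : Fin n) : mkd m i ↔ mkd m' i := by
  rw [mkd_iff, mkd_iff, Leq_cok h]

/-- `i` at the bottom of `m` and `j` at the bottom of `m q` belong to the same top block -/
def Con (m q : PM n) (i j : Fin n) : Prop := ∃ k, tb m k i ∧ tb (m * q) k j

theorem Con_Leq {m m' : PM n} (h : (KR n).Leq m m') {q : PM n} {i j : Fin n} (hc : Con m q i j) :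
    Con m' q i j := by
  obtain ⟨k, h1, h2⟩ := hc
  obtain ⟨k', h3⟩ := (Leq_mkd h i).1 ⟨k, h1⟩
  refine ⟨k', h3, tb_iff'.2 ?_⟩
  intro f g hfg
  obtain ⟨w, h4, h5⟩ := mem_C_mul.1 hfg
  have h6 := tb_iff'.1 h3 f w h4
  have h7 : w ∈ m.im := by rw [Leq_im h]; exact mem_im.2 ⟨f, h4⟩
  obtain ⟨f', h8⟩ := mem_im.1 h7
  have h9 := tb_iff'.1 h1 f' w h8
  have h10 := tb_iff'.1 h2 f' g (mem_C_mul.2 ⟨w, h8, h5⟩)
  rw [h6, ← h9, h10]

open Classical in
/-- the sign -/
noncomputable def kp (m q : PM n) : ZMod 2 :=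
  if ∃ i j, IsLeast {i | mkd m i} i ∧ IsLeast {j | mkd (m * q) j} j ∧ Con m q i j then 0 else 1

theorem kp_Leq {m m' : PM n} (h : (KR n).Leq m m') (q : PM n) : kp m q = kp m' q := by
  have e1 : {i | mkd m i} = {i | mkd m' i} := by ext i; exact Leq_mkd h i
  have e2 : {i | mkd (m * q) i} = {i | mkd (m' * q) i} := by ext i; exact Leq_mkd (h.op q) i
  have e3 : ∀ i j, Con m q i j ↔ Con m' q i j := fun i j => ⟨Con_Leq h, Con_Leq h.symm⟩
  have e4 : (∃ i j, IsLeast {i | mkd m i} i ∧ IsLeast {j | mkd (m * q) j} j ∧ Con m q i j) ↔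
      ∃ i j, IsLeast {i | mkd m' i} i ∧ IsLeast {j | mkd (m' * q) j} j ∧ Con m' q i j := by
    rw [e1, e2]
    simp only [e3]
  unfold kp
  by_cases h5 : ∃ i j, IsLeast {i | mkd m i} i ∧ IsLeast {j | mkd (m * q) j} j ∧ Con m q i j
  · rw [if_pos h5, if_pos (e4.1 h5)]
  · rw [if_neg h5, if_neg (fun h => h5 (e4.2 h))]

theorem exists_least {P : Fin n → Prop} (h : ∃ i, P i) : ∃ i, IsLeast {i | P i} i := by
  obtain ⟨i, hi⟩ := h
  have hf : {i | P i}.Finite := Set.toFinite _
  obtain ⟨j, hj, hmin⟩ := hf.exists_minimal ⟨i, hi⟩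
  refine ⟨j, hj, fun k hk => ?_⟩
  rcases le_total j k with h1 | h1
  · exact h1
  · exact hmin hk h1

theorem exists_mkd {m : PM n} (h : 0 < rk m) : ∃ i, mkd m i := by
  by_contra hn
  push Not at hn
  have h1 : m.im ≤ m.cok := by
    intro g hg
    obtain ⟨f, hf⟩ := mem_im.1 hg
    apply mem_cok.2
    rintro ⟨b, i⟩ ⟨b', j⟩ hr
    cases b <;> cases b'
    · simp
    · exact absurd ⟨i, hr⟩ (hn j)
    · exact absurd ⟨j, m.eqv.symm hr⟩ (hn i)
    · have := hf _ _ hr
      simpa using this
  have h2 : rk m = 0 := by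
    show m.rank = 0
    rw [rank_eq', le_antisymm h1 (cok_le_im m), Nat.sub_self]
  omega

theorem rk_Es (A : Set (Fin n)) : rk (Es A) = Nat.card A := by
  classical
  have := Fintype.ofFinite A
  apply le_antisymm _ (card_le_rk_Es A)
  have h2 : (Es A).ker = LinearMap.ker (LinearMap.funLeft (ZMod 2) (ZMod 2) (Subtype.val : A → Fin n)) := by
    ext f
    rw [mem_ker, mem_C_Es, LinearMap.mem_ker]
    constructor
    · intro h
      ext k
      exact h k k.2
    · intro h i hi
      exact congrFun h ⟨i, hi⟩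
  show (Es A).rank ≤ _
  unfold rank
  rw [h2]
  have h3 := LinearMap.finrank_range_add_finrank_ker
    (LinearMap.funLeft (ZMod 2) (ZMod 2) (Subtype.val : A → Fin n))
  rw [LinearMap.range_eq_top.2 (LinearMap.funLeft_surjective_of_injective _ _ _ Subtype.val_injective)] at h3
  rw [finrank_top] at h3
  have h4 : finrank (ZMod 2) (A → ZMod 2) = Nat.card A := by
    rw [Module.finrank_fintype_fun_eq_card, Nat.card_eq_fintype_card]
  have h5 : finrank (ZMod 2) (A → ZMod 2) + finrank (ZMod 2) (LinearMap.ker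
    (LinearMap.funLeft (ZMod 2) (ZMod 2) (Subtype.val : A → Fin n))) = finrank (ZMod 2) (Vec n) := h3
  rw [h4] at h5
  have h6 : finrank (ZMod 2) (Es A).dom ≤ finrank (ZMod 2) (Vec n) := Submodule.finrank_le _
  exact (Nat.sub_le_sub_right h6 _).trans (le_of_eq (Nat.sub_eq_of_eq_add h5.symm))

/-- an element of rank less than three does not have three different marked top blocks -/
theorem three_marks {m : PM n} (hr : rk m < 3) {k1 k2 k3 : Fin n} (h1 : mkt m k1) (h2 : mkt m k2)
    (h3 : mkt m k3) (h12 : ¬ m.r (false, k1) (false, k2)) (h23 : ¬ m.r (false, k2) (false, k3)) :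
    m.r (false, k1) (false, k3) := by
  classical
  by_contra h13
  have n12 : k1 ≠ k2 := by rintro rfl; exact h12 (m.eqv.refl _)
  have n23 : k2 ≠ k3 := by rintro rfl; exact h23 (m.eqv.refl _)
  have n13 : k1 ≠ k3 := by rintro rfl; exact h13 (m.eqv.refl _)
  set K : Set (Fin n) := {k1, k2, k3} with hK
  have key : Es K * m * m.star * Es K = Es K := by
    apply ext_C
    intro f g
    rw [mem_C_Es]
    constructor
    · intro hfg k hk
      obtain ⟨h'', hA, hB⟩ := mem_C_mul.1 hfg
      obtain ⟨h', hC, hD⟩ := mem_C_mul.1 hA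
      obtain ⟨h, hE, hF⟩ := mem_C_mul.1 hC
      rw [mem_C_star] at hD
      rw [mem_C_Es] at hE hB
      have hm : mkt m k := by
        simp only [hK, Set.mem_insert_iff, Set.mem_singleton_iff] at hk
        rcases hk with rfl | rfl | rfl <;> assumption
      obtain ⟨i, hi⟩ := hm
      rw [hE k hk, tb_iff'.1 hi _ _ hF, ← tb_iff'.1 hi _ _ hD, hB k hk]
    · intro hfg
      let t : Vec n := fun l => f k1 * ind m (false, k1) false l + f k2 * ind m (false, k2) false l +
        f k3 * ind m (false, k3) false l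
      let s : Vec n := fun l => f k1 * ind m (false, k1) true l + f k2 * ind m (false, k2) true l +
        f k3 * ind m (false, k3) true l
      have hts : (t, s) ∈ m.C := by
        have e1 := m.C.add_mem (m.C.add_mem (m.C.smul_mem (f k1) (ind_mem m (false, k1)))
          (m.C.smul_mem (f k2) (ind_mem m (false, k2)))) (m.C.smul_mem (f k3) (ind_mem m (false, k3)))
        exact e1
      have ht : ∀ k ∈ K, t k = f k := by
        have r1 := m.eqv.refl (false, k1)
        have r2 := m.eqv.refl (false, k2)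
        have r3 := m.eqv.refl (false, k3)
        have h21 : ¬ m.r (false, k2) (false, k1) := fun h => h12 (m.eqv.symm h)
        have h32 : ¬ m.r (false, k3) (false, k2) := fun h => h23 (m.eqv.symm h)
        have h31 : ¬ m.r (false, k3) (false, k1) := fun h => h13 (m.eqv.symm h)
        intro k hk
        simp only [hK, Set.mem_insert_iff, Set.mem_singleton_iff] at hk
        rcases hk with rfl | rfl | rfl
        · simp [t, ind, r1, h21, h31]
        · simp [t, ind, r2, h12, h32]
        · simp [t, ind, r3, h13, h23]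
      refine mem_C_mul.2 ⟨t, mem_C_mul.2 ⟨s, mem_C_mul.2 ⟨t, ?_, hts⟩, ?_⟩, ?_⟩
      · rw [mem_C_Es]; intro k hk; exact (ht k hk).symm
      · rw [mem_C_star]; exact hts
      · rw [mem_C_Es]; intro k hk; rw [ht k hk, hfg k hk]
  have hcard : Nat.card K = 3 := by
    have : K = (({k1, k2, k3} : Finset (Fin n)) : Set (Fin n)) := by simp [hK]
    rw [this, Nat.card_eq_card_toFinset, Finset.toFinset_coe]
    rw [Finset.card_insert_of_notMem, Finset.card_insert_of_notMem, Finset.card_singleton]
    · simpa using n23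
    · simp [n12, n13]
  have h4 := card_le_rk_Es K
  have h5 : rk (Es K * m * m.star * Es K) ≤ rk m :=
    (rk_mul_le_left _ _).trans ((rk_mul_le_left _ _).trans (rk_mul_le_right _ _))
  rw [key] at h5
  omega

theorem kp_eq {m q : PM n} {k k' i j : Fin n} (hr : rk (m * q) = rk m)
    (hi : IsLeast {i | mkd m i} i) (hj : IsLeast {j | mkd (m * q) j} j) (hk : tb m k i)
    (hk' : tb (m * q) k' j) [Decidable (m.r (false, k) (false, k'))] :
    kp m q = if m.r (false, k) (false, k') then 0 else 1 := by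
  have hdom := ((rank_mul_eq_left_iff m q).1 hr).1
  have htop : ∀ k l, (m * q).r (false, k) (false, l) ↔ m.r (false, k) (false, l) := by
    intro k l
    rw [top_iff', top_iff', hdom]
  have : (∃ i j, IsLeast {i | mkd m i} i ∧ IsLeast {j | mkd (m * q) j} j ∧ Con m q i j) ↔
      m.r (false, k) (false, k') := by
    constructor
    · rintro ⟨i', j', hi', hj', l, hl, hl'⟩
      have e1 := hi'.unique hi
      have e2 := hj'.unique hj
      subst e1 e2
      have h1 : m.r (false, k) (false, l) := m.eqv.trans hk (m.eqv.symm hl)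
      have h2 : (m * q).r (false, l) (false, k') := (m * q).eqv.trans hl' ((m * q).eqv.symm hk')
      exact m.eqv.trans h1 ((htop _ _).1 h2)
    · intro h
      exact ⟨i, j, hi, hj, k, hk, (m * q).eqv.trans ((htop _ _).2 h) hk'⟩
  unfold kp
  by_cases h : m.r (false, k) (false, k')
  · rw [if_pos h, if_pos (this.2 h)]
  · rw [if_neg h, if_neg (fun h' => h (this.1 h'))]

/-- the cocycle identity -/
theorem kp_coc {m q q' : PM n} (h3 : rk m < 3) (h0 : 0 < rk m) (hr : rk (m * q * q') = rk m) :
    kp m (q * q') = kp m q + kp (m * q) q' := by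
  classical
  have hr1 : rk (m * q) = rk m := le_antisymm (rk_mul_le_left _ _) (hr ▸ rk_mul_le_left _ _)
  have hr2 : rk (m * q * q') = rk (m * q) := by rw [hr, hr1]
  obtain ⟨i, hi⟩ := exists_least (exists_mkd h0)
  obtain ⟨j, hj⟩ := exists_least (exists_mkd (m := m * q) (by omega))
  obtain ⟨l, hl⟩ := exists_least (exists_mkd (m := m * q * q') (by omega))
  obtain ⟨k, hk⟩ := hi.1
  obtain ⟨k', hk'⟩ := hj.1
  obtain ⟨k'', hk''⟩ := hl.1
  have d1 := (rank_mul_eq_left_iff m q).1 hr1
  have d2 := (rank_mul_eq_left_iff (m * q) q').1 hr2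
  have htop : ∀ k l, (m * q).r (false, k) (false, l) ↔ m.r (false, k) (false, l) := by
    intro k l
    rw [top_iff', top_iff', d1.1]
  have hmk1 : mkt m k := ⟨i, hk⟩
  have hmk2 : mkt m k' := by
    have : mkt (m * q) k' := ⟨j, hk'⟩
    rw [mkt_iff, d1.2] at this
    exact mkt_iff.2 this
  have hmk3 : mkt m k'' := by
    have : mkt (m * q * q') k'' := ⟨l, hk''⟩
    rw [mkt_iff, d2.2, d1.2] at this
    exact mkt_iff.2 this
  have e1 := kp_eq hr1 hi hj hk hk'
  have e2 := kp_eq hr2 hj hl hk' hk''
  have e3 := kp_eq (m := m) (q := q * q') (by rw [← mul_assoc]; exact hr) hi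
    (by rw [← mul_assoc]; exact hl) hk (by rw [← mul_assoc]; exact hk'')
  rw [e1, e2, e3]
  simp only [htop]
  by_cases a1 : m.r (false, k) (false, k')
  · by_cases a2 : m.r (false, k') (false, k'')
    · have a3 : m.r (false, k) (false, k'') := m.eqv.trans a1 a2
      simp [a1, a2, a3]
    · have a3 : ¬ m.r (false, k) (false, k'') := fun a3 => a2 (m.eqv.trans (m.eqv.symm a1) a3)
      simp [a1, a2, a3]
  · by_cases a2 : m.r (false, k') (false, k'')
    · have a3 : ¬ m.r (false, k) (false, k'') := fun a3 => a1 (m.eqv.trans a3 (m.eqv.symm a2))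
      simp [a1, a2, a3]
    · have a3 : m.r (false, k) (false, k'') := three_marks h3 hmk1 hmk2 hmk3 a1 a2
      simp only [a1, a2, a3, if_true, if_false]
      decide

end Pool.Agent.W2helper28.FC
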