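import Pool.Agent.W2helper28.FC.Run
import Pool.Agent.helper213_IG.Dec

/-!
# Invariants of the elements of `IG (PM n)` all of whose letters have rank at least three
-/

set_option autoImplicit false

namespace Pool.Agent.W2helper28.FC

open Relation
open Pool.Agent.H213
open Pool.Agent.H213.RkMonoid

variable {n : ℕ}

/-- words in the idempotents -/
abbrev Wd (n : ℕ) := List (Idem (PM n))

/-- multiplication on the right -/
noncomputable def KR (n : ℕ) : Rk (PM n) where
  op a b := a * b
  one := 1
  rk := rk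
  assoc := mul_assoc
  one_op := one_mul
  le_l := rk_mul_le_left
  le_r := rk_mul_le_right

/-- multiplication on the left -/
noncomputable def KL (n : ℕ) : Rk (PM n) where
  op a b := b * a
  one := 1
  rk := rk
  assoc a b c := (mul_assoc c b a).symm
  one_op := mul_one
  le_l a b := rk_mul_le_right b a
  le_r a b := rk_mul_le_left b a

@[simp] theorem KR_op (a b : PM n) : (KR n).op a b = a * b := rfl
@[simp] theorem KL_op (a b : PM n) : (KL n).op a b = b * a := rfl
@[simp] theorem KR_one : (KR n).one = 1 := rfl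
@[simp] theorem KL_one : (KL n).one = 1 := rfl
@[simp] theorem KR_rk (a : PM n) : (KR n).rk a = rk a := rfl
@[simp] theorem KL_rk (a : PM n) : (KL n).rk a = rk a := rfl

/-- the values of the letters -/
def cw (w : Wd n) : List (PM n) := w.map (fun e => (e : PM n))

@[simp] theorem cw_nil : cw ([] : Wd n) = [] := rfl
@[simp] theorem cw_cons (a : Idem (PM n)) (w : Wd n) : cw (a :: w) = (a : PM n) :: cw w := rfl
@[simp] theorem cw_append (u v : Wd n) : cw (u ++ v) = cw u ++ cw v := by simp [cw]

/-- reading from the left -/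
noncomputable def RR (w : Wd n) : Rk.St (PM n) := (KR n).run 3 (KR n).st0 (cw w)

/-- reading from the right -/
noncomputable def LL (w : Wd n) : Rk.St (PM n) := (KL n).run 3 (KL n).st0 (cw w).reverse

theorem prR (l : List (PM n)) : (KR n).pr l = l.prod := by
  unfold Rk.pr
  induction l using List.reverseRecOn with
  | nil => rfl
  | append_singleton l a ih => rw [List.foldl_append, ih]; simp

theorem prL (l : List (PM n)) : (KL n).pr l.reverse = l.prod := by
  unfold Rk.pr
  induction l with
  | nil => rfl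
  | cons a l ih => rw [List.reverse_cons, List.foldl_append, ih]; simp

theorem vl_cw (w : Wd n) : (cw w).prod = vl w := rfl

/-- all letters have rank at least three -/
def Adm (w : Wd n) : Prop := ∀ e ∈ w, 3 ≤ rk (e : PM n)

theorem Adm.append_iff {u v : Wd n} : Adm (u ++ v) ↔ Adm u ∧ Adm v := by
  unfold Adm
  constructor
  · exact fun h => ⟨fun e he => h e (by simp [he]), fun e he => h e (by simp [he])⟩
  · rintro ⟨h1, h2⟩ e he
    rcases List.mem_append.1 he with he | he
    · exact h1 e he
    · exact h2 e he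

theorem basic_rk {a b c : Idem (PM n)} (hb : Basic (a : PM n) (b : PM n))
    (hc : (a : PM n) * (b : PM n) = c) :
    3 ≤ rk (c : PM n) ↔ 3 ≤ rk (a : PM n) ∧ 3 ≤ rk (b : PM n) := by
  rw [← hc]
  constructor
  · intro h
    exact ⟨h.trans (rk_mul_le_left _ _), h.trans (rk_mul_le_right _ _)⟩
  · rintro ⟨h1, h2⟩
    rcases hb with hb | hb | hb | hb
    · rw [hb]; exact h1
    · rw [hb]; exact h2
    · have h3 : (a : PM n) * (b : PM n) * (a : PM n) = a := by rw [mul_assoc, hb, a.mul_self]
      have h4 := rk_mul_le_left ((a : PM n) * (b : PM n)) (a : PM n)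
      rw [h3] at h4
      exact h1.trans h4
    · have h3 : (b : PM n) * ((a : PM n) * (b : PM n)) = b := by rw [← mul_assoc, hb, b.mul_self]
      have h4 := rk_mul_le_right (b : PM n) ((a : PM n) * (b : PM n))
      rw [h3] at h4
      exact h2.trans h4

theorem adm_step {p q : Wd n} {a b c : Idem (PM n)} (hb : Basic (a : PM n) (b : PM n))
    (hc : (a : PM n) * (b : PM n) = c) : Adm (p ++ [a, b] ++ q) ↔ Adm (p ++ [c] ++ q) := by
  simp only [Adm.append_iff]
  have h1 : Adm ([a, b] : Wd n) ↔ 3 ≤ rk (a : PM n) ∧ 3 ≤ rk (b : PM n) := by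
    simp [Adm]
  have h2 : Adm ([c] : Wd n) ↔ 3 ≤ rk (c : PM n) := by
    simp [Adm]
  rw [h1, h2, basic_rk hb hc]

theorem seq_step {p q : Wd n} {a b c : Idem (PM n)} (hb : Basic (a : PM n) (b : PM n))
    (hc : (a : PM n) * (b : PM n) = c) (hr : 3 ≤ rk (c : PM n)) :
    (KR n).Seq (RR (p ++ [a, b] ++ q)) (RR (p ++ [c] ++ q)) ∧
    (KL n).Seq (LL (p ++ [a, b] ++ q)) (LL (p ++ [c] ++ q)) := by
  constructor
  · have := Rk.run_basic (K := KR n) (r := 3) (e := (a : PM n)) (f := (b : PM n)) a.mul_self b.mul_self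
      hb (by simp only [KR_op, KR_rk]; rw [hc]; exact hr) (KR n).st0 (cw p) (cw q)
    unfold RR
    simp only [KR_op] at this
    rw [hc] at this
    simpa using this
  · have hb' : (KL n).Bas (b : PM n) (a : PM n) := by
      unfold Rk.Bas
      simp only [KL_op]
      unfold Basic at hb
      tauto
    have := Rk.run_basic (K := KL n) (r := 3) (e := (b : PM n)) (f := (a : PM n)) b.mul_self a.mul_self
      hb' (by simp only [KL_op, KL_rk]; rw [hc]; exact hr) (KL n).st0 (cw q).reverse (cw p).reverse
    unfold LL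
    simp only [KL_op] at this
    rw [hc] at this
    simpa using this

theorem inv_step {u v : Wd n} (h : StepW u v) :
    (Adm u ↔ Adm v) ∧ (Adm u → (KR n).Seq (RR u) (RR v) ∧ (KL n).Seq (LL u) (LL v)) := by
  obtain ⟨p, q, a, b, c, hb, hc, rfl, rfl⟩ := h
  refine ⟨adm_step hb hc, fun hA => seq_step hb hc ?_⟩
  have h1 := (adm_step hb hc).1 hA
  exact h1 c (by simp)

/-- the invariants of an element -/
theorem inv_eq {u v : Wd n} (h : mkw u = mkw v) :
    (Adm u ↔ Adm v) ∧ (Adm u → (KR n).Seq (RR u) (RR v) ∧ (KL n).Seq (LL u) (LL v)) := by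
  have h1 := mkw_eq_iff.1 h
  clear h
  induction h1 with
  | rel x y h => exact inv_step h
  | refl x => exact ⟨Iff.rfl, fun _ => ⟨Rk.Seq.refl _, Rk.Seq.refl _⟩⟩
  | symm x y _ ih =>
    refine ⟨ih.1.symm, fun h => ?_⟩
    have := ih.2 (ih.1.2 h)
    exact ⟨this.1.symm, this.2.symm⟩
  | trans x y z _ _ ih1 ih2 =>
    refine ⟨ih1.1.trans ih2.1, fun h => ?_⟩
    have h1 := ih1.2 h
    have h2 := ih2.2 (ih1.1.1 h)
    exact ⟨h1.1.trans h2.1, h1.2.trans h2.2⟩

theorem rk_Leq_right {m m' : PM n} (h : (KR n).Leq m m') (x : PM n) : rk (m * x) = rk (m' * x) :=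
  (h.op x).rk_eq

theorem rk_Leq_left {m m' : PM n} (h : (KL n).Leq m m') (x : PM n) : rk (x * m) = rk (x * m') :=
  (h.op x).rk_eq

theorem RR_append (u p : Wd n) (h : (RR u).c ≠ 0) :
    (RR (u ++ p)).m = (RR u).m * vl p ∧ (RR (u ++ p)).c ≠ 0 := by
  have h1 := Rk.run_m (K := KR n) (r := 3) h (cw p)
  unfold RR
  rw [cw_append, Rk.run_append]
  refine ⟨?_, h1.2⟩
  have h2 := h1.1
  rw [Rk.foldl_pr (K := KR n) (fun a => mul_one a), prR, vl_cw] at h2
  exact h2

theorem LL_append (p v : Wd n) (h : (LL v).c ≠ 0) :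
    (LL (p ++ v)).m = vl p * (LL v).m ∧ (LL (p ++ v)).c ≠ 0 := by
  have h1 := Rk.run_m (K := KL n) (r := 3) h (cw p).reverse
  unfold LL
  rw [cw_append, List.reverse_append, Rk.run_append]
  refine ⟨?_, h1.2⟩
  have h2 := h1.1
  rw [Rk.foldl_pr (K := KL n) (fun a => one_mul a), prL, vl_cw] at h2
  exact h2

theorem rk_one' : rk (1 : PM n) = n := rk_one

theorem RR_c_iff (hn : 3 ≤ n) (w : Wd n) : (RR w).c ≠ 0 ↔ rk (vl w) < 3 := by
  have h := Rk.inv (K := KR n) (r := 3) (cw w) (by simp only [KR_rk, KR_one]; rw [rk_one']; exact hn)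
  rw [prR, vl_cw] at h
  constructor
  · exact h.2.1
  · intro h1 h2
    have := (h.1 h2).2
    simp only [KR_rk] at this
    omega

theorem LL_c_iff (hn : 3 ≤ n) (w : Wd n) : (LL w).c ≠ 0 ↔ rk (vl w) < 3 := by
  have h := Rk.inv (K := KL n) (r := 3) (cw w).reverse
    (by simp only [KL_rk, KL_one]; rw [rk_one']; exact hn)
  rw [prL, vl_cw] at h
  constructor
  · exact h.2.1
  · intro h1 h2
    have := (h.1 h2).2
    simp only [KL_rk] at this
    omega

theorem RR_m_rk (hn : 3 ≤ n) {w : Wd n} (h : 2 ≤ (RR w).c) : rk (RR w).m < 3 :=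
  (Rk.inv (K := KR n) (r := 3) (cw w)
    (by simp only [KR_rk, KR_one]; rw [rk_one']; exact hn)).2.2.2 h

theorem RR_sub (u w : Wd n) : (RR w).c + (RR u).c ≤ (RR (u ++ w)).c ∧
    (RR (u ++ w)).c ≤ (RR w).c + (RR u).c + 1 := by
  have := Rk.c_append (K := KR n) (r := 3) (fun a => mul_one a) (cw u) (cw w)
  unfold RR
  rw [cw_append]
  exact this

/-- the rank of the middle part is two at all cuts in the middle -/
def DP (w : Wd n) : Prop :=
  ∀ u v, w = u ++ v → (RR u).c ≠ 0 → (LL v).c ≠ 0 → rk ((RR u).m * (LL v).m) = 2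

theorem DP_step (hn : 3 ≤ n) {w w' : Wd n} (h : StepW w w') (hA : Adm w) (hc : 4 ≤ (RR w).c) :
    DP w ↔ DP w' := by
  have hwf := inv_step h
  obtain ⟨p, q, a, b, c, hb, hc', rfl, rfl⟩ := h
  have hA' := hwf.1.1 hA
  have hrc : 3 ≤ rk (c : PM n) := hA' c (by simp)
  have sR : ∀ q1, (KR n).Seq (RR (p ++ [a, b] ++ q1)) (RR (p ++ [c] ++ q1)) :=
    fun q1 => (seq_step hb hc' hrc).1
  have sL : ∀ p1, (KL n).Seq (LL (p1 ++ [a, b] ++ q)) (LL (p1 ++ [c] ++ q)) :=
    fun p1 => (seq_step hb hc' hrc).2
  constructor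
  · intro hD u v huv hu hv
    have huv' : p ++ ([c] ++ q) = u ++ v := by rw [← List.append_assoc]; exact huv
    rcases List.append_eq_append_iff.1 huv' with ⟨m, hm1, hm2⟩ | ⟨m, hm1, hm2⟩
    · -- u = p ++ m, [c] ++ q = m ++ v
      cases m with
      | nil =>
        simp only [List.append_nil, List.nil_append] at hm1 hm2
        subst hm1 hm2
        have h1 := sL []
        simp only [List.nil_append] at h1
        have hv' : (LL ([a, b] ++ q)).c ≠ 0 := by rw [h1.2.1]; exact hv
        have := hD u ([a, b] ++ q) (by simp) hu hv'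
        rw [← rk_Leq_left (h1.2.2 hv')]
        exact this
      | cons x m =>
        simp only [List.cons_append, List.nil_append, List.cons.injEq] at hm2
        obtain ⟨rfl, rfl⟩ := hm2
        subst hm1
        have h1 := sR m
        have hu2 : p ++ c :: m = p ++ [c] ++ m := by simp
        rw [hu2] at hu ⊢
        have hu' : (RR (p ++ [a, b] ++ m)).c ≠ 0 := by rw [h1.2.1]; exact hu
        have := hD (p ++ [a, b] ++ m) v (by simp) hu' hv
        rw [← rk_Leq_right (h1.2.2 hu')]
        exact this
    · -- p = u ++ m, v = m ++ ([c] ++ q)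
      subst hm1 hm2
      have h1 := sL m
      have hv2 : m ++ ([c] ++ q) = m ++ [c] ++ q := by simp
      rw [hv2] at hv ⊢
      have hv' : (LL (m ++ [a, b] ++ q)).c ≠ 0 := by rw [h1.2.1]; exact hv
      have := hD u (m ++ [a, b] ++ q) (by simp) hu hv'
      rw [← rk_Leq_left (h1.2.2 hv')]
      exact this
  · intro hD u v huv hu hv
    have huv' : p ++ ([a, b] ++ q) = u ++ v := by rw [← List.append_assoc]; exact huv
    rcases List.append_eq_append_iff.1 huv' with ⟨m, hm1, hm2⟩ | ⟨m, hm1, hm2⟩
    · -- u = p ++ m, [a, b] ++ q = m ++ v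
      match m, hm1, hm2 with
      | [], hm1, hm2 =>
        simp only [List.append_nil, List.nil_append] at hm1 hm2
        subst hm1 hm2
        have h1 := sL []
        simp only [List.nil_append] at h1
        have hv' : (LL ([c] ++ q)).c ≠ 0 := by rw [← h1.2.1]; exact hv
        have := hD u ([c] ++ q) (by simp) hu hv'
        rw [rk_Leq_left (h1.2.2 hv)]
        exact this
      | [x], hm1, hm2 =>
        simp only [List.cons_append, List.nil_append, List.cons.injEq] at hm2
        obtain ⟨rfl, rfl⟩ := hm2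
        subst hm1
        -- the new cut
        by_cases hp : (RR p).c ≠ 0
        · have h1 := sL []
          simp only [List.nil_append] at h1
          have e1 := RR_append p [a] hp
          have e2 := LL_append [a] (b :: q) hv
          have e3 : [a] ++ b :: q = [a, b] ++ q := by simp
          rw [e3] at e2
          have hv' : (LL ([c] ++ q)).c ≠ 0 := by rw [← h1.2.1]; exact e2.2
          have := hD p ([c] ++ q) (by simp) hp hv'
          rw [e1.1, mul_assoc, ← e2.1, rk_Leq_left (h1.2.2 e2.2)]
          exact this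
        · by_cases hq : (LL q).c ≠ 0
          · have h1 := sR []
            simp only [List.append_nil] at h1
            have e1 := RR_append (p ++ [a]) [b] hu
            have e2 := LL_append [b] q hq
            have e3 : p ++ [a] ++ [b] = p ++ [a, b] := by simp
            rw [e3] at e1
            have hu' : (RR (p ++ [c])).c ≠ 0 := by rw [← h1.2.1]; exact e1.2
            have := hD (p ++ [c]) q (by simp) hu' hq
            have e4 : b :: q = [b] ++ q := rfl
            rw [e4, e2.1, ← mul_assoc, ← e1.1, rk_Leq_right (h1.2.2 e1.2)]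
            exact this
          · exfalso
            push Not at hp hq
            have hq' : (RR q).c = 0 := by
              by_contra h1
              exact (LL_c_iff hn q).2 ((RR_c_iff hn q).1 h1) hq
            have h1 := (RR_sub p ([a, b] ++ q)).2
            have h2 := (RR_sub [a, b] q).2
            have h3 : (RR [a, b]).c ≤ 1 := by
              have hz : (RR [a, b]).c = (RR [c]).c := by
                have := (sR []).2.1
                have h4 := (seq_step (p := []) (q := []) hb hc' hrc).1.2.1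
                simpa using h4
              have := (RR_sub [] [c]).2
              have h5 := Rk.run_c_ub (K := KR n) (r := 3) (KR n).st0 (cw [c])
              have h6 : (RR [c]).c ≤ 1 := by
                unfold RR
                simpa [Rk.st0] using h5
              omega
            rw [List.append_assoc] at hc
            omega
      | x :: y :: m, hm1, hm2 =>
        simp only [List.cons_append, List.nil_append, List.cons.injEq] at hm2
        obtain ⟨rfl, rfl, rfl⟩ := hm2
        subst hm1
        have h1 := sR m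
        have hu2 : p ++ a :: b :: m = p ++ [a, b] ++ m := by simp
        rw [hu2] at hu ⊢
        have hu' : (RR (p ++ [c] ++ m)).c ≠ 0 := by rw [← h1.2.1]; exact hu
        have := hD (p ++ [c] ++ m) v (by simp) hu' hv
        rw [rk_Leq_right (h1.2.2 hu)]
        exact this
    · subst hm1 hm2
      have h1 := sL m
      have hv2 : m ++ ([a, b] ++ q) = m ++ [a, b] ++ q := by simp
      rw [hv2] at hv ⊢
      have hv' : (LL (m ++ [c] ++ q)).c ≠ 0 := by rw [← h1.2.1]; exact hv
      have := hD u (m ++ [c] ++ q) (by simp) hu hv'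
      rw [rk_Leq_left (h1.2.2 hv)]
      exact this

theorem DP_eq (hn : 3 ≤ n) {w w' : Wd n} (h : mkw w = mkw w') (hA : Adm w) (hc : 4 ≤ (RR w).c) :
    DP w ↔ DP w' := by
  have h1 := mkw_eq_iff.1 h
  clear h
  induction h1 with
  | rel x y h => exact DP_step hn h hA hc
  | refl x => exact Iff.rfl
  | symm x y h ih =>
    have h2 := inv_eq (mkw_eq_iff.2 h)
    have hx := h2.1.2 hA
    have h3 := (h2.2 hx).1.2.1
    exact (ih hx (by rw [h3]; exact hc)).symm
  | trans x y z h1 h2 ih1 ih2 =>
    have h3 := inv_eq (mkw_eq_iff.2 h1)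
    have hy := h3.1.1 hA
    have h4 := (h3.2 hA).1.2.1
    exact (ih1 hA hc).trans (ih2 hy (by rw [← h4]; exact hc))

/-- one cut is enough -/
theorem DP_of {w u v : Wd n} (hw : w = u ++ v) (hu : (RR u).c ≠ 0) (hv : (LL v).c ≠ 0)
    (h : rk ((RR u).m * (LL v).m) = 2) : DP w := by
  intro u' v' huv hu' hv'
  rw [hw] at huv
  rcases List.append_eq_append_iff.1 huv with ⟨m, hm1, hm2⟩ | ⟨m, hm1, hm2⟩
  · -- u' = u ++ m, v = m ++ v'
    subst hm1 hm2
    rw [(RR_append u m hu).1, mul_assoc, ← (LL_append m v' hv').1]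
    exact h
  · subst hm1 hm2
    rw [(RR_append u' m hu').1, mul_assoc, ← (LL_append m v hv).1] at h
    exact h

end Pool.Agent.W2helper28.FC
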