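import Pool.Agent.W2helper28.FC.Col

/-!
# The elements `a`, `b`, `ε` of `IG (PM n)`

`a` has the three strands `x0 - x0`, `x1 - x1`, `x2 - x3`, the element `b` has the strands `x0 - x1`,
`x1 - x0`, `x2 - x3` and the same weight, and the idempotent `ε` joins `x0` and `x1`. Then `a b = b a`,
`ε a = ε b` and `a ε = b ε`.
-/

set_option autoImplicit false

namespace Pool.Agent.W2helper28.FC

open Relation
open Pool.Agent.H213
open Pool.Agent.H213.RkMonoid
open Pool.Agent.H213.PM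

variable {n : ℕ}

/-- five different points -/
structure Dist5 (x0 x1 x2 x3 x4 : Fin n) : Prop where
  h01 : x0 ≠ x1
  h02 : x0 ≠ x2
  h03 : x0 ≠ x3
  h04 : x0 ≠ x4
  h12 : x1 ≠ x2
  h13 : x1 ≠ x3
  h14 : x1 ≠ x4
  h23 : x2 ≠ x3
  h24 : x2 ≠ x4
  h34 : x3 ≠ x4

/-! ### moving tokens -/

theorem mR {x : PM n} {i j : Fin n} (hij : i ≠ j) {f g : Vec n} :
    (f, g) ∈ (x * (tt i j * ss i)).C ↔ (f, Function.update g i (g j)) ∈ x.C := by
  rw [mem_C_mul]
  constructor
  · rintro ⟨h, h1, h2⟩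
    rw [mem_C_b] at h2
    have : h = Function.update g i (g j) := by
      ext k
      by_cases hk : k = i
      · subst hk
        rw [Function.update_self, h2.2, h2.1 j hij.symm]
      · rw [Function.update_of_ne hk, h2.1 k hk]
    rw [← this]; exact h1
  · intro h
    refine ⟨_, h, mem_C_b.2 ⟨fun k hk => by rw [Function.update_of_ne hk], ?_⟩⟩
    rw [Function.update_self, Function.update_of_ne hij.symm]

theorem mL {x : PM n} {i j : Fin n} (hij : i ≠ j) {f g : Vec n} :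
    (f, g) ∈ ((ss i * tt i j) * x).C ↔ (Function.update f i (f j), g) ∈ x.C := by
  rw [mem_C_mul]
  constructor
  · rintro ⟨h, h1, h2⟩
    rw [mem_C_a] at h1
    have : h = Function.update f i (f j) := by
      ext k
      by_cases hk : k = i
      · subst hk
        rw [Function.update_self, h1.2, h1.1 j hij.symm]
      · rw [Function.update_of_ne hk, h1.1 k hk]
    rw [← this]; exact h2
  · intro h
    refine ⟨_, mem_C_a.2 ⟨fun k hk => by rw [Function.update_of_ne hk], ?_⟩, h⟩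
    rw [Function.update_self, Function.update_of_ne hij.symm]

/-- moving a token through an interface -/
theorem tok {s t : PM n} {i j : Fin n} (hij : i ≠ j) (hs : s * ss j = s) (ht : ss j * t = t) :
    E0 (s, t) (s * (tt i j * ss i), (ss i * tt i j) * t) := by
  have jtj : ss j * tt i j * ss j = ss j := by rw [tt_symm]; exact sts hij.symm
  have tit : tt i j * ss i * tt i j = tt i j := tst hij
  have e1 : s * tt i j * ss j = s := by
    calc s * tt i j * ss j = s * ss j * tt i j * ss j := by rw [hs]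
      _ = s * (ss j * tt i j * ss j) := by simp only [mul_assoc]
      _ = s := by rw [jtj, hs]
  have e2 : ss j * (tt i j * t) = t := by
    calc ss j * (tt i j * t) = ss j * (tt i j * (ss j * t)) := by rw [ht]
      _ = (ss j * tt i j * ss j) * t := by simp only [mul_assoc]
      _ = t := by rw [jtj, ht]
  have e3 : s * tt i j * tt i j = s * tt i j := by rw [mul_assoc, tt_idem]
  have e4 : s * tt i j * ss i * tt i j = s * tt i j := by
    calc s * tt i j * ss i * tt i j = s * (tt i j * ss i * tt i j) := by simp only [mul_assoc]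
      _ = _ := by rw [tit]
  have e5 : tt i j * (ss i * (tt i j * t)) = tt i j * t := by
    calc tt i j * (ss i * (tt i j * t)) = (tt i j * ss i * tt i j) * t := by simp only [mul_assoc]
      _ = _ := by rw [tit]
  have e6 : ss i * (ss i * (tt i j * t)) = ss i * (tt i j * t) := by rw [← mul_assoc, ss_idem]
  have r1 : rk (s * tt i j * ss j) = rk (s * tt i j) := by
    apply le_antisymm (rk_mul_le_left _ _)
    rw [e1]; exact rk_mul_le_left _ _
  have r2 : rk (tt i j * t) = rk t := by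
    apply le_antisymm (rk_mul_le_right _ _)
    calc rk t = rk (ss j * (tt i j * t)) := by rw [e2]
      _ ≤ _ := rk_mul_le_right _ _
  have r3 : rk (tt i j * (ss i * (tt i j * t))) = rk (ss i * (tt i j * t)) := by
    apply le_antisymm (rk_mul_le_right _ _)
    rw [e5]; exact rk_mul_le_right _ _
  have r4 : rk (s * tt i j * ss i) = rk (s * tt i j) := by
    apply le_antisymm (rk_mul_le_left _ _)
    calc rk (s * tt i j) = rk (s * tt i j * ss i * tt i j) := by rw [e4]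
      _ ≤ _ := rk_mul_le_left _ _
  have s1 : Step0 (s, t) (s * tt i j, t) :=
    ⟨s * tt i j, t, si j, by rw [coe_si]; exact r1, by rw [coe_si, ht], by rw [coe_si, e1],
      by rw [coe_si, ht]⟩
  have s2 : Step0 (s * tt i j, t) (s * tt i j, tt i j * t) :=
    ⟨s * tt i j, t, ti i j, by rw [coe_ti, e3], by rw [coe_ti]; exact r2, by rw [coe_ti, e3],
      by rw [coe_ti]⟩
  have s3 : Step0 (s * tt i j, ss i * (tt i j * t)) (s * tt i j, tt i j * t) :=
    ⟨s * tt i j, ss i * (tt i j * t), ti i j, by rw [coe_ti, e3], by rw [coe_ti]; exact r3,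
      by rw [coe_ti, e3], by rw [coe_ti, e5]⟩
  have s4 : Step0 (s * tt i j * ss i, ss i * (tt i j * t)) (s * tt i j, ss i * (tt i j * t)) :=
    ⟨s * tt i j, ss i * (tt i j * t), si i, by rw [coe_si]; exact r4, by rw [coe_si, e6],
      by rw [coe_si], by rw [coe_si, e6]⟩
  rw [← mul_assoc s, mul_assoc (ss i)]
  exact EqvGen.trans _ _ _ (EqvGen.rel _ _ s1) (EqvGen.trans _ _ _ (EqvGen.rel _ _ s2)
    (EqvGen.trans _ _ _ (EqvGen.symm _ _ (EqvGen.rel _ _ s3)) (EqvGen.symm _ _ (EqvGen.rel _ _ s4))))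

/-- the exchange on the right -/
def thR (x0 x1 x4 : Fin n) (s : PM n) : PM n :=
  s * (tt x0 x4 * ss x0) * (tt x1 x0 * ss x1) * (tt x4 x1 * ss x4)

/-- the exchange on the left -/
def thL (x0 x1 x4 : Fin n) (t : PM n) : PM n :=
  (ss x4 * tt x4 x1) * ((ss x1 * tt x1 x0) * ((ss x0 * tt x0 x4) * t))

theorem exch {x0 x1 x4 : Fin n} (h01 : x0 ≠ x1) (h04 : x0 ≠ x4) (h14 : x1 ≠ x4) {s t : PM n}
    (hs : s * ss x4 = s) (ht : ss x4 * t = t) :
    E0 (s, t) (thR x0 x1 x4 s, thL x0 x1 x4 t) := by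
  have h1 := tok (i := x0) (j := x4) h04 hs ht
  have h2 := tok (i := x1) (j := x0) h01.symm (s := s * (tt x0 x4 * ss x0))
    (t := (ss x0 * tt x0 x4) * t) (by simp only [mul_assoc, ss_idem])
    (by rw [← mul_assoc, ← mul_assoc, ss_idem])
  have h3 := tok (i := x4) (j := x1) h14.symm
    (s := s * (tt x0 x4 * ss x0) * (tt x1 x0 * ss x1))
    (t := (ss x1 * tt x1 x0) * ((ss x0 * tt x0 x4) * t)) (by simp only [mul_assoc, ss_idem])
    (by rw [← mul_assoc (ss x1) (ss x1 * tt x1 x0), ← mul_assoc (ss x1) (ss x1) (tt x1 x0), ss_idem])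
  exact EqvGen.trans _ _ _ h1 (EqvGen.trans _ _ _ h2 h3)

theorem mem_thR {x0 x1 x4 : Fin n} (h01 : x0 ≠ x1) (h04 : x0 ≠ x4) (h14 : x1 ≠ x4) {s : PM n}
    {f g : Vec n} : (f, g) ∈ (thR x0 x1 x4 s).C ↔
      (f, fun k => if k = x0 then g x1 else if k = x1 then g x0 else if k = x4 then g x1 else g k)
        ∈ s.C := by
  unfold thR
  rw [mR h14.symm, mR h01.symm, mR h04]
  have : (Function.update (Function.update (Function.update g x4 (g x1)) x1
      (Function.update g x4 (g x1) x0)) x0 (Function.update (Function.update g x4 (g x1)) x1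
        (Function.update g x4 (g x1) x0) x4)) =
      (fun k => if k = x0 then g x1 else if k = x1 then g x0 else if k = x4 then g x1 else g k) := by
    ext k
    by_cases h0 : k = x0
    · subst h0
      simp [h04, h14.symm]
    · by_cases h1 : k = x1
      · subst h1
        simp [h0, h04]
      · by_cases h4 : k = x4
        · subst h4
          simp [h0, h1]
        · simp [h0, h1, h4]
  rw [this]

theorem mem_thL {x0 x1 x4 : Fin n} (h01 : x0 ≠ x1) (h04 : x0 ≠ x4) (h14 : x1 ≠ x4) {s : PM n}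
    {f g : Vec n} : (f, g) ∈ (thL x0 x1 x4 s).C ↔
      ((fun k => if k = x0 then f x1 else if k = x1 then f x0 else if k = x4 then f x1 else f k), g)
        ∈ s.C := by
  unfold thL
  rw [mL h14.symm, mL h01.symm, mL h04]
  have : (Function.update (Function.update (Function.update f x4 (f x1)) x1
      (Function.update f x4 (f x1) x0)) x0 (Function.update (Function.update f x4 (f x1)) x1
        (Function.update f x4 (f x1) x0) x4)) =
      (fun k => if k = x0 then f x1 else if k = x1 then f x0 else if k = x4 then f x1 else f k) := by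
    ext k
    by_cases h0 : k = x0
    · subst h0
      simp [h04, h14.symm]
    · by_cases h1 : k = x1
      · subst h1
        simp [h0, h04]
      · by_cases h4 : k = x4
        · subst h4
          simp [h0, h1]
        · simp [h0, h1, h4]
  rw [this]

/-! ### the values -/

variable (x0 x1 x2 x3 x4 : Fin n)

/-- the value of `a` -/
def aV : PM n := Es {x0, x1, x2} * (tt x2 x3 * ss x2)

/-- the value of `b` -/
def bV : PM n := thR x0 x1 x4 (aV x0 x1 x2 x3)

/-- the value of `ε` -/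
def eV : PM n := tt x0 x1 * Es {x0, x1, x2, x3}

variable {x0 x1 x2 x3 x4} (D : Dist5 x0 x1 x2 x3 x4)

theorem mem_Es3 {f g : Vec n} {x y z : Fin n} :
    (f, g) ∈ (Es {x, y, z}).C ↔ f x = g x ∧ f y = g y ∧ f z = g z := by
  rw [mem_C_Es]; simp

theorem mem_Es2 {f g : Vec n} {x y : Fin n} :
    (f, g) ∈ (Es {x, y}).C ↔ f x = g x ∧ f y = g y := by
  rw [mem_C_Es]; simp

include D

theorem mem_aV {f g : Vec n} :
    (f, g) ∈ (aV x0 x1 x2 x3).C ↔ f x0 = g x0 ∧ f x1 = g x1 ∧ f x2 = g x3 := by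
  unfold aV
  rw [mR D.h23, mem_Es3]
  simp [D.h02, D.h12]

theorem mem_bV {f g : Vec n} :
    (f, g) ∈ (bV x0 x1 x2 x3 x4).C ↔ f x0 = g x1 ∧ f x1 = g x0 ∧ f x2 = g x3 := by
  unfold bV
  rw [mem_thR D.h01 D.h04 D.h14, mem_aV D]
  simp [D.h01.symm, D.h03.symm, D.h13.symm, D.h34]

theorem thL_aV : thL x0 x1 x4 (aV x0 x1 x2 x3) = bV x0 x1 x2 x3 x4 := by
  apply ext_C; intro f g
  rw [mem_thL D.h01 D.h04 D.h14, mem_aV D, mem_bV D]
  simp [D.h01.symm, D.h02.symm, D.h12.symm, D.h24] <;> tauto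

theorem thL_bV : thL x0 x1 x4 (bV x0 x1 x2 x3 x4) = aV x0 x1 x2 x3 := by
  apply ext_C; intro f g
  rw [mem_thL D.h01 D.h04 D.h14, mem_aV D, mem_bV D]
  simp [D.h01.symm, D.h02.symm, D.h12.symm, D.h24] <;> tauto

theorem thR_bV : thR x0 x1 x4 (bV x0 x1 x2 x3 x4) = aV x0 x1 x2 x3 := by
  apply ext_C; intro f g
  rw [mem_thR D.h01 D.h04 D.h14, mem_aV D, mem_bV D]
  simp [D.h01.symm, D.h03.symm, D.h13.symm, D.h34] <;> tauto

omit D in
theorem mem_eV {f g : Vec n} :
    (f, g) ∈ (eV x0 x1 x2 x3).C ↔ f x0 = f x1 ∧ f x0 = g x0 ∧ f x1 = g x1 ∧ f x2 = g x2 ∧ f x3 = g x3 := by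
  unfold eV
  rw [mem_C_tt_mul, mem_C_Es]
  simp
  tauto

omit D in
theorem eV_idem : eV x0 x1 x2 x3 * eV x0 x1 x2 x3 = eV x0 x1 x2 x3 := by
  apply ext_C; intro f g
  rw [mem_C_mul]
  simp only [mem_eV]
  constructor
  · rintro ⟨h, ⟨a1, a2, a3, a4, a5⟩, b1, b2, b3, b4, b5⟩
    exact ⟨a1, by rw [a2, b2], by rw [a3, b3], by rw [a4, b4], by rw [a5, b5]⟩
  · rintro ⟨a1, a2, a3, a4, a5⟩
    exact ⟨f, ⟨a1, rfl, rfl, rfl, rfl⟩, a1, a2, a3, a4, a5⟩

theorem thR_eV : thR x0 x1 x4 (eV x0 x1 x2 x3) = eV x0 x1 x2 x3 := by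
  apply ext_C; intro f g
  rw [mem_thR D.h01 D.h04 D.h14, mem_eV, mem_eV]
  simp only [D.h01.symm, D.h02.symm, D.h03.symm, D.h12.symm, D.h13.symm, D.h24, D.h34, if_true, if_false]
  constructor
  · rintro ⟨a1, a2, a3, a4, a5⟩
    exact ⟨a1, by rw [a1, a3], by rw [← a1, a2], a4, a5⟩
  · rintro ⟨a1, a2, a3, a4, a5⟩
    exact ⟨a1, by rw [a1, a3], by rw [← a1, a2], a4, a5⟩

theorem thL_eV : thL x0 x1 x4 (eV x0 x1 x2 x3) = eV x0 x1 x2 x3 := by
  apply ext_C; intro f g
  rw [mem_thL D.h01 D.h04 D.h14, mem_eV, mem_eV]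
  simp only [D.h01.symm, D.h02.symm, D.h03.symm, D.h12.symm, D.h13.symm, D.h24, D.h34, if_true, if_false]
  constructor
  · rintro ⟨a1, a2, a3, a4, a5⟩
    exact ⟨a1.symm, by rw [← a1, a2], by rw [a1, a3], a4, a5⟩
  · rintro ⟨a1, a2, a3, a4, a5⟩
    exact ⟨a1.symm, by rw [← a1, a2], by rw [a1, a3], a4, a5⟩

/-! ### ranks -/

theorem card3 : Nat.card ({x0, x1, x2} : Set (Fin n)) = 3 := by
  have : ({x0, x1, x2} : Set (Fin n)) = (({x0, x1, x2} : Finset (Fin n)) : Set (Fin n)) := by simp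
  rw [this, Nat.card_eq_card_toFinset, Finset.toFinset_coe]
  rw [Finset.card_insert_of_notMem, Finset.card_insert_of_notMem, Finset.card_singleton]
  · simpa using D.h12
  · simp [D.h01, D.h02]

theorem card3' : Nat.card ({x1, x2, x3} : Set (Fin n)) = 3 := by
  have : ({x1, x2, x3} : Set (Fin n)) = (({x1, x2, x3} : Finset (Fin n)) : Set (Fin n)) := by simp
  rw [this, Nat.card_eq_card_toFinset, Finset.toFinset_coe]
  rw [Finset.card_insert_of_notMem, Finset.card_insert_of_notMem, Finset.card_singleton]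
  · simpa using D.h23
  · simp [D.h12, D.h13]

omit D in
theorem card2 {x y : Fin n} (h : x ≠ y) : Nat.card ({x, y} : Set (Fin n)) = 2 := by
  have : ({x, y} : Set (Fin n)) = (({x, y} : Finset (Fin n)) : Set (Fin n)) := by simp
  rw [this, Nat.card_eq_card_toFinset, Finset.toFinset_coe]
  rw [Finset.card_insert_of_notMem, Finset.card_singleton]
  simpa using h

theorem rk_E3 : rk (Es {x0, x1, x2}) = 3 := by rw [rk_Es, card3 D]

theorem rk_aV : rk (aV x0 x1 x2 x3) = 3 := by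
  apply le_antisymm
  · rw [← rk_E3 D]; exact rk_mul_le_left _ _
  · have : aV x0 x1 x2 x3 * (tt x3 x2 * ss x3) = Es {x0, x1, x2} := by
      apply ext_C; intro f g
      rw [mR D.h23.symm, mem_aV D, mem_Es3]
      simp [D.h03, D.h13]
    rw [← rk_E3 D, ← this]
    exact rk_mul_le_left _ _

theorem rk_bi : 3 ≤ rk (tt x2 x3 * ss x2) := by
  rw [← rk_aV D]; exact rk_mul_le_right _ _

theorem rk_bV : rk (bV x0 x1 x2 x3 x4) = 3 := by
  apply le_antisymm
  · rw [← rk_aV D]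
    unfold bV thR
    exact (rk_mul_le_left _ _).trans ((rk_mul_le_left _ _).trans (rk_mul_le_left _ _))
  · rw [← rk_aV D, ← thR_bV D]
    unfold thR
    exact (rk_mul_le_left _ _).trans ((rk_mul_le_left _ _).trans (rk_mul_le_left _ _))

theorem rk_eV : 3 ≤ rk (eV x0 x1 x2 x3) := by
  have key : Es {x1, x2, x3} * eV x0 x1 x2 x3 * Es {x1, x2, x3} = Es {x1, x2, x3} := by
    apply ext_C; intro f g
    rw [mem_C_mul]
    constructor
    · rintro ⟨h', h1, h2⟩
      obtain ⟨h, h3, h4⟩ := mem_C_mul.1 h1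
      rw [mem_Es3] at h2 h3 ⊢
      rw [mem_eV] at h4
      exact ⟨by rw [h3.1, h4.2.2.1, h2.1], by rw [h3.2.1, h4.2.2.2.1, h2.2.1],
        by rw [h3.2.2, h4.2.2.2.2, h2.2.2]⟩
    · intro h
      rw [mem_Es3] at h
      refine ⟨Function.update f x0 (f x1), mem_C_mul.2 ⟨Function.update f x0 (f x1), ?_, ?_⟩, ?_⟩
      · rw [mem_Es3]
        simp [D.h01.symm, D.h02.symm, D.h03.symm]
      · rw [mem_eV]
        simp [D.h01.symm]
      · rw [mem_Es3]
        simp [D.h01.symm, D.h02.symm, D.h03.symm, h]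
  calc 3 = rk (Es {x1, x2, x3}) := by rw [rk_Es, card3' D]
    _ = rk (Es {x1, x2, x3} * eV x0 x1 x2 x3 * Es {x1, x2, x3}) := by rw [key]
    _ ≤ rk (Es {x1, x2, x3} * eV x0 x1 x2 x3) := rk_mul_le_left _ _
    _ ≤ _ := rk_mul_le_right _ _

omit D in
theorem rk_U {y : Fin n} (h01 : x0 ≠ x1) (h0 : x0 ≠ y) (h1 : x1 ≠ y) :
    rk (tt x0 x1 * Es {x0, x1, y}) ≤ 2 := by
  have key : tt x0 x1 * (Es {x1, y} * (ss x0 * tt x0 x1)) = tt x0 x1 * Es {x0, x1, y} := by
    apply ext_C; intro f g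
    rw [mem_C_tt_mul, mem_C_tt_mul, mem_C_mul, mem_Es3]
    simp only [mem_C_a, mem_Es2]
    constructor
    · rintro ⟨⟨h, ⟨a1, a2⟩, a3, a4⟩, a5⟩
      have e1 : f x1 = g x1 := by rw [a1, a3 x1 h01.symm]
      exact ⟨⟨by rw [a5, e1, a4], e1, by rw [a2, a3 y h0.symm]⟩, a5⟩
    · rintro ⟨⟨a1, a2, a3⟩, a4⟩
      refine ⟨⟨Function.update g x0 (f x0), ⟨?_, ?_⟩, fun k hk => ?_, ?_⟩, a4⟩
      · rw [Function.update_of_ne h01.symm, a2]
      · rw [Function.update_of_ne h0.symm, a3]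
      · rw [Function.update_of_ne hk]
      · rw [← a1, a4, a2]
  rw [← key]
  calc _ ≤ rk (Es {x1, y} * (ss x0 * tt x0 x1)) := rk_mul_le_right _ _
    _ ≤ rk (Es {x1, y}) := rk_mul_le_left _ _
    _ = 2 := by rw [rk_Es, card2 h1]

/-- `ε` times the first letter of `a` -/
theorem rk_eE : rk (eV x0 x1 x2 x3 * Es {x0, x1, x2}) ≤ 2 := by
  have : eV x0 x1 x2 x3 * Es {x0, x1, x2} = tt x0 x1 * Es {x0, x1, x2} := by
    unfold eV
    rw [mul_assoc, Es_mul]
    congr 2
    ext k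
    simp only [Set.mem_inter_iff, Set.mem_insert_iff, Set.mem_singleton_iff]
    tauto
  rw [this]
  exact rk_U D.h01 D.h02 D.h12

theorem aE : aV x0 x1 x2 x3 * Es {x0, x1, x2} = Es {x0, x1} := by
  apply ext_C; intro f g
  rw [mem_C_mul, mem_Es2]
  simp only [mem_aV D, mem_Es3]
  constructor
  · rintro ⟨h, ⟨a1, a2, a3⟩, b1, b2, b3⟩
    exact ⟨by rw [a1, b1], by rw [a2, b2]⟩
  · rintro ⟨a1, a2⟩
    refine ⟨Function.update g x3 (f x2), ⟨?_, ?_, ?_⟩, ?_, ?_, ?_⟩
    · rw [Function.update_of_ne D.h03, a1]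
    · rw [Function.update_of_ne D.h13, a2]
    · rw [Function.update_self]
    · rw [Function.update_of_ne D.h03]
    · rw [Function.update_of_ne D.h13]
    · rw [Function.update_of_ne D.h23]

theorem rk_aE : rk (aV x0 x1 x2 x3 * Es {x0, x1, x2}) = 2 := by
  rw [aE D, rk_Es, card2 D.h01]

theorem aa : aV x0 x1 x2 x3 * aV x0 x1 x2 x3 = Es {x0, x1} := by
  apply ext_C; intro f g
  rw [mem_C_mul, mem_Es2]
  simp only [mem_aV D]
  constructor
  · rintro ⟨h, ⟨a1, a2, a3⟩, b1, b2, b3⟩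
    exact ⟨by rw [a1, b1], by rw [a2, b2]⟩
  · rintro ⟨a1, a2⟩
    refine ⟨Function.update (Function.update g x3 (f x2)) x2 (g x3), ⟨?_, ?_, ?_⟩, ?_, ?_, ?_⟩
    · rw [Function.update_of_ne D.h02, Function.update_of_ne D.h03, a1]
    · rw [Function.update_of_ne D.h12, Function.update_of_ne D.h13, a2]
    · rw [Function.update_of_ne D.h23.symm, Function.update_self]
    · rw [Function.update_of_ne D.h02, Function.update_of_ne D.h03]
    · rw [Function.update_of_ne D.h12, Function.update_of_ne D.h13]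
    · rw [Function.update_self]

theorem Ea : Es {x0, x1} * aV x0 x1 x2 x3 = Es {x0, x1} := by
  apply ext_C; intro f g
  rw [mem_C_mul, mem_Es2]
  simp only [mem_aV D, mem_Es2]
  constructor
  · rintro ⟨h, ⟨a1, a2⟩, b1, b2, b3⟩
    exact ⟨by rw [a1, b1], by rw [a2, b2]⟩
  · rintro ⟨a1, a2⟩
    refine ⟨Function.update g x2 (g x3), ⟨?_, ?_⟩, ?_, ?_, ?_⟩
    · rw [Function.update_of_ne D.h02, a1]
    · rw [Function.update_of_ne D.h12, a2]
    · rw [Function.update_of_ne D.h02]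
    · rw [Function.update_of_ne D.h12]
    · rw [Function.update_self]

theorem Eb : ∀ f g, (f, g) ∈ (Es {x0, x1} * bV x0 x1 x2 x3 x4).C ↔ f x0 = g x1 ∧ f x1 = g x0 := by
  intro f g
  rw [mem_C_mul]
  simp only [mem_bV D, mem_Es2]
  constructor
  · rintro ⟨h, ⟨a1, a2⟩, b1, b2, b3⟩
    exact ⟨by rw [a1, b1], by rw [a2, b2]⟩
  · rintro ⟨a1, a2⟩
    refine ⟨Function.update f x2 (g x3), ⟨?_, ?_⟩, ?_, ?_, ?_⟩
    · rw [Function.update_of_ne D.h02]
    · rw [Function.update_of_ne D.h12]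
    · rw [Function.update_of_ne D.h02, a1]
    · rw [Function.update_of_ne D.h12, a2]
    · rw [Function.update_self]

/-- the last letter of `a` times `ε` -/
theorem rk_be : rk ((tt x2 x3 * ss x2) * eV x0 x1 x2 x3) ≤ 2 := by
  have key : (tt x2 x3 * ss x2) * (tt x0 x1 * Es {x0, x1, x3}) = (tt x2 x3 * ss x2) * eV x0 x1 x2 x3 := by
    apply ext_C; intro f g
    rw [mem_C_mul, mem_C_mul]
    constructor
    · rintro ⟨h, h1, h2⟩
      rw [mem_C_b] at h1
      rw [mem_C_tt_mul, mem_Es3] at h2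
      obtain ⟨⟨a1, a2, a3⟩, a4⟩ := h2
      refine ⟨Function.update h x2 (g x2), ?_, ?_⟩
      · rw [mem_C_b]
        refine ⟨fun k hk => ?_, h1.2⟩
        rw [Function.update_of_ne hk]; exact h1.1 k hk
      · rw [mem_eV]
        rw [Function.update_of_ne D.h02, Function.update_of_ne D.h12, Function.update_self,
          Function.update_of_ne D.h23.symm]
        exact ⟨a4, a1, a2, rfl, a3⟩
    · rintro ⟨h, h1, h2⟩
      refine ⟨h, h1, ?_⟩
      rw [mem_eV] at h2
      rw [mem_C_tt_mul, mem_Es3]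
      tauto
  rw [← key]
  exact (rk_mul_le_right _ _).trans (rk_U D.h01 D.h03 D.h13)

/-- the last letter of `a` times `a` -/
theorem rk_ba : rk ((tt x2 x3 * ss x2) * aV x0 x1 x2 x3) ≤ 2 := by
  have key : (tt x2 x3 * ss x2) * (Es {x0, x1} * (tt x2 x3 * ss x2)) =
      (tt x2 x3 * ss x2) * aV x0 x1 x2 x3 := by
    unfold aV
    rw [← mul_assoc, ← mul_assoc _ (Es {x0, x1, x2})]
    congr 1
    apply ext_C; intro f g
    rw [mem_C_mul, mem_C_mul]
    constructor
    · rintro ⟨h, h1, h2⟩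
      rw [mem_C_b] at h1
      rw [mem_Es2] at h2
      refine ⟨Function.update h x2 (g x2), ?_, ?_⟩
      · rw [mem_C_b]
        refine ⟨fun k hk => ?_, h1.2⟩
        rw [Function.update_of_ne hk]; exact h1.1 k hk
      · rw [mem_Es3, Function.update_of_ne D.h02, Function.update_of_ne D.h12, Function.update_self]
        exact ⟨h2.1, h2.2, rfl⟩
    · rintro ⟨h, h1, h2⟩
      rw [mem_Es3] at h2
      exact ⟨h, h1, mem_Es2.2 ⟨h2.1, h2.2.1⟩⟩
  rw [← key]
  calc _ ≤ rk (Es {x0, x1} * (tt x2 x3 * ss x2)) := rk_mul_le_right _ _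
    _ ≤ rk (Es {x0, x1}) := rk_mul_le_left _ _
    _ = 2 := by rw [rk_Es, card2 D.h01]

theorem rk_ea : rk (eV x0 x1 x2 x3 * aV x0 x1 x2 x3) ≤ 2 := by
  have : eV x0 x1 x2 x3 * aV x0 x1 x2 x3 = eV x0 x1 x2 x3 * Es {x0, x1, x2} * (tt x2 x3 * ss x2) := by
    unfold aV; simp only [mul_assoc]
  rw [this]
  exact (rk_mul_le_left _ _).trans (rk_eE D)

theorem rk_ae : rk (aV x0 x1 x2 x3 * eV x0 x1 x2 x3) ≤ 2 := by
  have : aV x0 x1 x2 x3 * eV x0 x1 x2 x3 = Es {x0, x1, x2} * ((tt x2 x3 * ss x2) * eV x0 x1 x2 x3) := by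
    unfold aV; simp only [mul_assoc]
  rw [this]
  exact (rk_mul_le_right _ _).trans (rk_be D)

theorem rk_ab : rk (aV x0 x1 x2 x3 * bV x0 x1 x2 x3 x4) ≤ 2 := by
  have h : Es {x0, x1, x2} * bV x0 x1 x2 x3 x4 = bV x0 x1 x2 x3 x4 := by
    unfold bV thR aV
    simp only [← mul_assoc]
    rw [Es_idem]
  rw [← h, ← mul_assoc]
  refine (rk_mul_le_left _ _).trans ?_
  rw [rk_aE D]

/-! ### the elements of `IG` -/

theorem a_ss : aV x0 x1 x2 x3 * ss x4 = aV x0 x1 x2 x3 := by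
  apply ext_C; intro f g
  rw [mem_C_mul_ss, mem_aV D]
  constructor
  · rintro ⟨h, h1, h2⟩
    rw [mem_aV D] at h1
    rw [h1.1, h1.2.1, h1.2.2, h2 x0 D.h04, h2 x1 D.h14, h2 x3 D.h34]
    exact ⟨rfl, rfl, rfl⟩
  · intro h
    exact ⟨g, (mem_aV D).2 h, fun _ _ => rfl⟩

theorem ss_a : ss x4 * aV x0 x1 x2 x3 = aV x0 x1 x2 x3 := by
  unfold aV
  rw [← mul_assoc, ss_mul_Es]
  simp [D.h04.symm, D.h14.symm, D.h24.symm]

theorem ss_b : ss x4 * bV x0 x1 x2 x3 x4 = bV x0 x1 x2 x3 x4 := by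
  unfold bV thR
  simp only [← mul_assoc]
  rw [ss_a D]

theorem ss_e : ss x4 * eV x0 x1 x2 x3 = eV x0 x1 x2 x3 := by
  unfold eV
  rw [← mul_assoc, ss_tt_comm D.h04.symm D.h14.symm, mul_assoc, ss_mul_Es]
  simp [D.h04.symm, D.h14.symm, D.h24.symm, D.h34.symm]

theorem e_ss : eV x0 x1 x2 x3 * ss x4 = eV x0 x1 x2 x3 := by
  unfold eV
  rw [mul_assoc, Es_mul_ss]
  simp [D.h04.symm, D.h14.symm, D.h24.symm, D.h34.symm]

omit D in
/-- the basic equality of products -/
theorem swap_eq {x y x' y' : IG (PM n)} (hx : Reg x) (hy : Reg y) (hx' : Reg x') (hy' : Reg y')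
    (hNR : NR (val x) (val y)) (i : Fin n) (h1 : val x * ss i = val x) (h2 : ss i * val y = val y)
    (hE : E0 (val x, val y) (val x', val y')) (hc : cst (val x) (val y) = cst (val x') (val y'))
    (hW : W x * W y = W x' * W y') : x * y = x' * y' := by
  have hN : Nrg (val x) (val y) := ⟨ss i, Or.inl ⟨i, rfl⟩, Or.inl ⟨h1, by rw [h2]⟩⟩
  have h3 : PEqv (x, y) (x', y') := by
    rw [pair_iff hx hy hx' hy' hNR]
    right
    refine ⟨hN, hE, ?_⟩
    rw [W_mul, W_mul, hW, hc]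
  exact h3.mul_eq

omit D in
variable (x0 x1 x2 x3) in
/-- `ε` as a letter -/
def ep : Idem (PM n) := ⟨eV x0 x1 x2 x3, eV_idem⟩

omit D in
variable (x0 x1 x2 x3) in
/-- the word `a` -/
def aw : Wd n := [ei {x0, x1, x2}, bi x2 x3]

omit D in
theorem val_aw : val (mkw (aw x0 x1 x2 x3)) = aV x0 x1 x2 x3 := by
  rw [← vl_eq]
  simp [aw, vl, aV]

theorem reg_aw : Reg (mkw (aw x0 x1 x2 x3)) := by
  have h : mkw (aw x0 x1 x2 x3) = io (ei {x0, x1, x2}) * io (bi x2 x3) := rfl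
  rw [h]
  apply (reg_io _).mul_right
  rw [val_io, val_io, coe_ei, coe_bi]
  show rk (aV x0 x1 x2 x3) = _
  rw [rk_aV D, rk_E3 D]

omit D in
theorem tw_congr {x y x' y' : PM n} (h1 : x.cok = x'.cok) (h2 : y.ker = y'.ker) :
    cst x y = cst x' y' := by
  unfold cst tw
  rw [h1, h2]

theorem cok_ab : (aV x0 x1 x2 x3).cok = (bV x0 x1 x2 x3 x4).cok := by
  ext g
  rw [mem_cok, mem_cok, mem_aV D, mem_bV D]
  tauto

theorem ker_ab : (aV x0 x1 x2 x3).ker = (bV x0 x1 x2 x3 x4).ker := by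
  ext g
  rw [mem_ker, mem_ker, mem_aV D, mem_bV D]
  simp

/-- **the element `b` and the relations** -/
theorem exists_b (hn : 5 ≤ n) : ∃ b : IG (PM n), val b = bV x0 x1 x2 x3 x4 ∧
    mkw (aw x0 x1 x2 x3) * b = b * mkw (aw x0 x1 x2 x3) ∧
    io (ep x0 x1 x2 x3) * mkw (aw x0 x1 x2 x3) = io (ep x0 x1 x2 x3) * b ∧
    mkw (aw x0 x1 x2 x3) * io (ep x0 x1 x2 x3) = b * io (ep x0 x1 x2 x3) := by
  set a := mkw (aw x0 x1 x2 x3) with ha
  have hva : val a = aV x0 x1 x2 x3 := val_aw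
  have hra : Reg a := reg_aw D
  -- a regular element with value `bV`
  obtain ⟨y, hy, hvy⟩ : ∃ y, Reg y ∧ val y = bV x0 x1 x2 x3 x4 := by
    refine ⟨a * (ta x0 x4 * sg x0 * (ta x1 x0 * sg x1) * (ta x4 x1 * sg x4)), ?_, ?_⟩
    · apply hra.mul_right
      have : val a * val (ta x0 x4 * sg x0 * (ta x1 x0 * sg x1) * (ta x4 x1 * sg x4)) =
          bV x0 x1 x2 x3 x4 := by
        rw [hva]
        simp only [map_mul, val_ta, val_sg]
        unfold bV thR
        simp only [mul_assoc]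
      rw [this, hva, rk_aV D, rk_bV D]
    · rw [map_mul, hva]
      simp only [map_mul, val_ta, val_sg]
      unfold bV thR
      simp only [mul_assoc]
  have hry : rk (val y) + 2 ≤ n := by rw [hvy, rk_bV D]; exact hn
  obtain ⟨b, hrb, hvb, hWb⟩ : ∃ b, Reg b ∧ val b = bV x0 x1 x2 x3 x4 ∧ W b = W a := by
    obtain ⟨m, hm | hm⟩ := W_ratio y a
    · obtain ⟨b, h1, h2, h3⟩ := (exists_W_pow hy hry m).1
      exact ⟨b, h1, by rw [h2, hvy], by rw [h3, hm]⟩
    · obtain ⟨b, h1, h2, h3⟩ := (exists_W_pow hy hry m).2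
      refine ⟨b, h1, by rw [h2, hvy], ?_⟩
      rw [hm] at h3
      have h2 : (2 : ℚ) ^ m ≠ 0 := by positivity
      exact mul_left_cancel₀ h2 h3
  have hre : Reg (io (ep x0 x1 x2 x3)) := reg_io _
  have hve : val (io (ep x0 x1 x2 x3)) = eV x0 x1 x2 x3 := by rw [val_io]; rfl
  refine ⟨b, hvb, ?_, ?_, ?_⟩
  · refine swap_eq hra hrb hrb hra ?_ x4 ?_ ?_ ?_ ?_ (mul_comm _ _)
    · rw [hva, hvb]
      have := rk_ab D
      have h1 := rk_aV D
      have h2 := rk_bV D
      constructor <;> omega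
    · rw [hva]; exact a_ss D
    · rw [hvb]; exact ss_b D
    · rw [hva, hvb]
      have := exch D.h01 D.h04 D.h14 (a_ss D) (ss_b D)
      rw [thL_bV D] at this
      exact this
    · rw [hva, hvb]
      exact tw_congr (cok_ab D) (ker_ab D).symm
  · refine swap_eq hre hra hre hrb ?_ x4 ?_ ?_ ?_ ?_ (by rw [hWb])
    · rw [hva, hve]
      have := rk_ea D
      have h1 := rk_aV D
      have h2 := rk_eV D
      constructor <;> omega
    · rw [hve]; exact e_ss D
    · rw [hva]; exact ss_a D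
    · rw [hva, hvb, hve]
      have := exch D.h01 D.h04 D.h14 (e_ss D) (ss_a D)
      rw [thR_eV D, thL_aV D] at this
      exact this
    · rw [hva, hvb, hve]
      exact tw_congr rfl (ker_ab D)
  · refine swap_eq hra hre hrb hre ?_ x4 ?_ ?_ ?_ ?_ (by rw [hWb])
    · rw [hva, hve]
      have := rk_ae D
      have h1 := rk_aV D
      have h2 := rk_eV D
      constructor <;> omega
    · rw [hva]; exact a_ss D
    · rw [hve]; exact ss_e D
    · rw [hva, hvb, hve]
      have := exch D.h01 D.h04 D.h14 (a_ss D) (ss_e D)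
      rw [thL_eV D] at this
      exact this
    · rw [hva, hvb, hve]
      exact tw_congr (cok_ab D) rfl

end Pool.Agent.W2helper28.FC
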