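import Pool.Agent.W2helper28.FC.Abs
import Pool.Agent.W2helper28.FC.Rel

/-!
# No finite complete rewriting system
-/

set_option autoImplicit false

namespace Pool.Agent.W2helper28.FC

open Relation
open Pool.Agent.H213
open Pool.Agent.H213.RkMonoid
open Pool.Agent.H213.PM

variable {n : ℕ}

section

variable {x0 x1 x2 x3 x4 : Fin n}

/-- the power of the word `a` -/
def apow (x0 x1 x2 x3 : Fin n) : ℕ → Wd n
  | 0 => []
  | k + 1 => apow x0 x1 x2 x3 k ++ aw x0 x1 x2 x3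

theorem apow_succ' (k : ℕ) :
    apow x0 x1 x2 x3 (k + 1) = aw x0 x1 x2 x3 ++ apow x0 x1 x2 x3 k := by
  induction k with
  | zero => simp [apow]
  | succ k ih =>
    rw [apow, ih, List.append_assoc]
    congr 1

theorem mkw_apow (k : ℕ) : mkw (apow x0 x1 x2 x3 k) = mkw (aw x0 x1 x2 x3) ^ k := by
  induction k with
  | zero => rfl
  | succ k ih => rw [apow, mkw_append, ih, pow_succ]

variable (x0 x1 x2 x3) in
/-- the word `ε` -/
def ew : Wd n := [ep x0 x1 x2 x3]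

theorem coe_ep : ((ep x0 x1 x2 x3 : Idem (PM n)) : PM n) = eV x0 x1 x2 x3 := rfl

variable (D : Dist5 x0 x1 x2 x3 x4)

include D

theorem adm_ew : Adm (ew x0 x1 x2 x3) := by
  intro e he
  simp only [ew, List.mem_singleton] at he
  subst he
  exact rk_eV D

theorem adm_aw : Adm (aw x0 x1 x2 x3) := by
  intro e he
  simp only [aw, List.mem_cons, List.not_mem_nil, or_false] at he
  rcases he with rfl | rfl
  · rw [coe_ei, rk_E3 D]
  · exact rk_bi D

theorem adm_apow (k : ℕ) : Adm (apow x0 x1 x2 x3 k) := by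
  induction k with
  | zero => intro e he; simp [apow] at he
  | succ k ih => rw [apow, Adm.append_iff]; exact ⟨ih, adm_aw D⟩

theorem RR_ew : RR (ew x0 x1 x2 x3) = ⟨eV x0 x1 x2 x3, 0, eV x0 x1 x2 x3⟩ := by
  unfold RR
  have h : cw (ew x0 x1 x2 x3) = [eV x0 x1 x2 x3] := rfl
  rw [h, Rk.run_cons, Rk.run_nil, Rk.stp_pos]
  · simp [Rk.st0]
  · simp only [Rk.st0, KR_op, KR_one, one_mul, KR_rk]
    exact rk_eV D

theorem LL_ew : LL (ew x0 x1 x2 x3) = ⟨eV x0 x1 x2 x3, 0, eV x0 x1 x2 x3⟩ := by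
  unfold LL
  have h : (cw (ew x0 x1 x2 x3)).reverse = [eV x0 x1 x2 x3] := rfl
  rw [h, Rk.run_cons, Rk.run_nil, Rk.stp_pos]
  · simp [Rk.st0]
  · simp only [Rk.st0, KL_op, KL_one, mul_one, KL_rk]
    exact rk_eV D

theorem run_aw (q : Rk.St (PM n)) (h : rk (q.v * Es {x0, x1, x2}) ≤ 2) :
    (KR n).run 3 q (cw (aw x0 x1 x2 x3)) =
      ⟨aV x0 x1 x2 x3, q.c + 1, if q.c = 0 then aV x0 x1 x2 x3 else q.m * aV x0 x1 x2 x3⟩ := by
  have h1 : cw (aw x0 x1 x2 x3) = [Es {x0, x1, x2}, tt x2 x3 * ss x2] := rfl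
  have s1 : (KR n).stp 3 q (Es {x0, x1, x2}) =
      ⟨Es {x0, x1, x2}, q.c + 1, if q.c = 0 then Es {x0, x1, x2} else q.m * Es {x0, x1, x2}⟩ :=
    Rk.stp_neg (by simp only [KR_op, KR_rk]; omega)
  have s2 : (KR n).stp 3
      ⟨Es {x0, x1, x2}, q.c + 1, if q.c = 0 then Es {x0, x1, x2} else q.m * Es {x0, x1, x2}⟩
      (tt x2 x3 * ss x2) = ⟨Es {x0, x1, x2} * (tt x2 x3 * ss x2), q.c + 1,
        (if q.c = 0 then Es {x0, x1, x2} else q.m * Es {x0, x1, x2}) * (tt x2 x3 * ss x2)⟩ :=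
    Rk.stp_pos (by simp only [KR_op, KR_rk]; exact (rk_aV D).symm.le)
  rw [h1, Rk.run_cons, Rk.run_cons, Rk.run_nil, s1, s2]
  unfold aV
  by_cases h0 : q.c = 0
  · simp only [h0, if_true]
  · simp only [h0, if_false, mul_assoc]

theorem runL_aw (q : Rk.St (PM n)) (h : rk ((tt x2 x3 * ss x2) * q.v) ≤ 2) :
    (KL n).run 3 q (cw (aw x0 x1 x2 x3)).reverse =
      ⟨aV x0 x1 x2 x3, q.c + 1, if q.c = 0 then aV x0 x1 x2 x3 else aV x0 x1 x2 x3 * q.m⟩ := by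
  have h1 : (cw (aw x0 x1 x2 x3)).reverse = [tt x2 x3 * ss x2, Es {x0, x1, x2}] := rfl
  have s1 : (KL n).stp 3 q (tt x2 x3 * ss x2) =
      ⟨tt x2 x3 * ss x2, q.c + 1, if q.c = 0 then tt x2 x3 * ss x2 else (tt x2 x3 * ss x2) * q.m⟩ :=
    Rk.stp_neg (by simp only [KL_op, KL_rk]; omega)
  have s2 : (KL n).stp 3
      ⟨tt x2 x3 * ss x2, q.c + 1, if q.c = 0 then tt x2 x3 * ss x2 else (tt x2 x3 * ss x2) * q.m⟩
      (Es {x0, x1, x2}) = ⟨Es {x0, x1, x2} * (tt x2 x3 * ss x2), q.c + 1,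
        Es {x0, x1, x2} * (if q.c = 0 then tt x2 x3 * ss x2 else (tt x2 x3 * ss x2) * q.m)⟩ :=
    Rk.stp_pos (by simp only [KL_op, KL_rk]; exact (rk_aV D).symm.le)
  rw [h1, Rk.run_cons, Rk.run_cons, Rk.run_nil, s1, s2]
  unfold aV
  by_cases h0 : q.c = 0
  · simp only [h0, if_true]
  · simp only [h0, if_false, mul_assoc]

theorem RR_pow (i : ℕ) : RR (ew x0 x1 x2 x3 ++ apow x0 x1 x2 x3 (i + 1)) =
    ⟨aV x0 x1 x2 x3, i + 1, aV x0 x1 x2 x3 ^ (i + 1)⟩ := by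
  induction i with
  | zero =>
    have h : RR (ew x0 x1 x2 x3 ++ apow x0 x1 x2 x3 (0 + 1)) =
        (KR n).run 3 (RR (ew x0 x1 x2 x3)) (cw (aw x0 x1 x2 x3)) := by
      simp [RR, apow]
    rw [h, RR_ew D, run_aw D ⟨eV x0 x1 x2 x3, 0, eV x0 x1 x2 x3⟩ (rk_eE D)]
    simp
  | succ i ih =>
    have h : RR (ew x0 x1 x2 x3 ++ apow x0 x1 x2 x3 (i + 1 + 1)) =
        (KR n).run 3 (RR (ew x0 x1 x2 x3 ++ apow x0 x1 x2 x3 (i + 1))) (cw (aw x0 x1 x2 x3)) := by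
      rw [apow]
      simp [RR]
    rw [h, ih, run_aw D ⟨aV x0 x1 x2 x3, i + 1, aV x0 x1 x2 x3 ^ (i + 1)⟩ (rk_aE D).le]
    rw [if_neg (Nat.succ_ne_zero _), ← pow_succ]

theorem LL_pow (i : ℕ) : LL (apow x0 x1 x2 x3 (i + 1) ++ ew x0 x1 x2 x3) =
    ⟨aV x0 x1 x2 x3, i + 1, aV x0 x1 x2 x3 ^ (i + 1)⟩ := by
  induction i with
  | zero =>
    have h : LL (apow x0 x1 x2 x3 (0 + 1) ++ ew x0 x1 x2 x3) =
        (KL n).run 3 (LL (ew x0 x1 x2 x3)) (cw (aw x0 x1 x2 x3)).reverse := by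
      simp [LL, apow]
    rw [h, LL_ew D, runL_aw D ⟨eV x0 x1 x2 x3, 0, eV x0 x1 x2 x3⟩ (rk_be D)]
    simp
  | succ i ih =>
    have h : LL (apow x0 x1 x2 x3 (i + 1 + 1) ++ ew x0 x1 x2 x3) =
        (KL n).run 3 (LL (apow x0 x1 x2 x3 (i + 1) ++ ew x0 x1 x2 x3))
          (cw (aw x0 x1 x2 x3)).reverse := by
      rw [apow_succ' (i + 1)]
      simp [LL]
    rw [h, ih, runL_aw D ⟨aV x0 x1 x2 x3, i + 1, aV x0 x1 x2 x3 ^ (i + 1)⟩ (rk_ba D)]
    rw [if_neg (Nat.succ_ne_zero _), ← pow_succ']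

theorem aV_pow (k : ℕ) : aV x0 x1 x2 x3 ^ (k + 2) = Es {x0, x1} := by
  induction k with
  | zero => rw [zero_add, pow_two, aa D]
  | succ k ih => rw [show k + 1 + 2 = k + 2 + 1 by ring, pow_succ, ih, Ea D]

omit D in
variable (x0 x1 x2 x3) in
/-- the words `ε a ^ k ε` -/
def w0 (k : ℕ) : Wd n := ew x0 x1 x2 x3 ++ apow x0 x1 x2 x3 k ++ ew x0 x1 x2 x3

theorem adm_w0 (k : ℕ) : Adm (w0 x0 x1 x2 x3 k) := by
  unfold w0
  rw [Adm.append_iff, Adm.append_iff]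
  exact ⟨⟨adm_ew D, adm_apow D k⟩, adm_ew D⟩

theorem c_w0 (k : ℕ) : k + 1 ≤ (RR (w0 x0 x1 x2 x3 (k + 1))).c := by
  have h1 := (RR_sub (ew x0 x1 x2 x3 ++ apow x0 x1 x2 x3 (k + 1)) (ew x0 x1 x2 x3)).1
  have h2 : (RR (ew x0 x1 x2 x3 ++ apow x0 x1 x2 x3 (k + 1))).c = k + 1 := by rw [RR_pow D]
  unfold w0
  omega

theorem DP_w0 (k : ℕ) : DP (w0 x0 x1 x2 x3 (k + 2)) := by
  have hu := RR_pow D 0
  have hv := LL_pow D k
  refine DP_of (u := ew x0 x1 x2 x3 ++ apow x0 x1 x2 x3 (0 + 1))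
    (v := apow x0 x1 x2 x3 (k + 1) ++ ew x0 x1 x2 x3) ?_ ?_ ?_ ?_
  · unfold w0
    rw [show k + 2 = (k + 1) + 1 by ring, apow_succ' (k + 1)]
    simp [apow]
  · rw [hu]; simp
  · rw [hv]; simp
  · rw [hu, hv]
    simp only
    rw [← pow_add, show 0 + 1 + (k + 1) = k + 2 by ring, aV_pow D, rk_Es, card2 D.h01]

theorem kp_a : kp (Es {x0, x1}) (aV x0 x1 x2 x3) = 0 := by
  have hm : ∀ i, mkd (Es {x0, x1}) i ↔ i = x0 ∨ i = x1 := by
    intro i
    constructor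
    · rintro ⟨k, hk⟩
      rcases hk with hk | ⟨_, hk⟩
      · simp at hk
      · simpa [show (false, k).2 = k from rfl, show k = i by assumption] using hk
    · intro h
      exact ⟨i, Or.inr ⟨rfl, by simpa using h⟩⟩
  obtain ⟨i, hi⟩ := exists_least (P := fun i => mkd (Es {x0, x1}) i) ⟨x0, (hm x0).2 (Or.inl rfl)⟩
  have h1 : tb (Es {x0, x1}) i i := Or.inr ⟨rfl, by simpa using (hm i).1 hi.1⟩
  unfold kp
  rw [if_pos]
  exact ⟨i, i, hi, by rw [Ea D]; exact hi, i, h1, by rw [Ea D]; exact h1⟩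

theorem kp_b : kp (Es {x0, x1}) (bV x0 x1 x2 x3 x4) = 1 := by
  classical
  have hm : ∀ i, mkd (Es {x0, x1}) i ↔ i = x0 ∨ i = x1 := by
    intro i
    constructor
    · rintro ⟨k, hk⟩
      rcases hk with hk | ⟨_, hk⟩
      · simp at hk
      · simpa [show (false, k).2 = k from rfl, show k = i by assumption] using hk
    · intro h
      exact ⟨i, Or.inr ⟨rfl, by simpa using h⟩⟩
  have hm' : ∀ i, mkd (Es {x0, x1} * bV x0 x1 x2 x3 x4) i ↔ i = x0 ∨ i = x1 := by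
    intro i
    rw [mkd_iff]
    constructor
    · intro h
      by_contra hn
      push Not at hn
      have := h (Pi.single i 1) (mem_cok.2 ((Eb D _ _).2 ⟨by simp [hn.2.symm], by simp [hn.1.symm]⟩))
      simp at this
    · rintro h g hg
      have := (Eb D _ _).1 (mem_cok.1 hg)
      rcases h with rfl | rfl
      · exact this.2.symm
      · exact this.1.symm
  unfold kp
  rw [if_neg]
  rintro ⟨i, j, hi, hj, k, h1, h2⟩
  have hij : i = j := by
    have e1 : {i | mkd (Es {x0, x1}) i} = {i | mkd (Es {x0, x1} * bV x0 x1 x2 x3 x4) i} := by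
      ext l; exact (hm l).trans (hm' l).symm
    rw [← e1] at hj
    exact hi.unique hj
  subst hij
  have hk : k = i := by
    rcases h1 with h1 | ⟨h1, _⟩
    · simp at h1
    · exact h1
  subst hk
  rw [tb_iff'] at h2
  rcases (hm k).1 hi.1 with rfl | rfl
  · have := h2 (Pi.single k 1) (Pi.single x1 1) ((Eb D _ _).2 ⟨by simp, by simp [D.h01, D.h01.symm]⟩)
    simp [D.h01] at this
  · have := h2 (Pi.single k 1) (Pi.single x0 1) ((Eb D _ _).2 ⟨by simp [D.h01, D.h01.symm], by simp⟩)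
    simp [D.h01.symm] at this

end

/-! ### the sets `X`, `Z` and the cocycle -/

/-- at least two cuts -/
def XX (s : IG (PM n)) : Prop := ∃ w, mkw w = s ∧ Adm w ∧ 2 ≤ (RR w).c

/-- at least one cut -/
def ZZ (t : IG (PM n)) : Prop := ∃ w, mkw w = t ∧ Adm w ∧ (LL w).c ≠ 0

/-- the cocycle -/
noncomputable def kap (s p : IG (PM n)) : ZMod 2 := kp (RR (mkw_surj s).choose).m (val p)

theorem kap_eq {w : Wd n} (hA : Adm w) (hc : (RR w).c ≠ 0) (p : IG (PM n)) :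
    kap (mkw w) p = kp (RR w).m (val p) := by
  unfold kap
  have h := (mkw_surj (mkw w)).choose_spec
  have h1 := (inv_eq h.symm).2 hA
  exact (kp_Leq (h1.1.2.2 hc) _).symm

theorem XX_mono {w : Wd n} (hA : Adm w) (s p t : IG (PM n)) (h : s * p * t = mkw w) (hX : XX s) :
    XX (s * p) := by
  obtain ⟨ws, rfl, h1, h2⟩ := hX
  obtain ⟨wp, rfl⟩ := mkw_surj p
  obtain ⟨wt, rfl⟩ := mkw_surj t
  rw [← mkw_append, ← mkw_append] at h
  have h3 := (inv_eq h).1.2 hA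
  rw [Adm.append_iff] at h3
  refine ⟨ws ++ wp, mkw_append _ _, h3.1, ?_⟩
  have := (RR_sub ws wp).1
  omega

theorem kap_coc (hn : 3 ≤ n) {w : Wd n} (hA : Adm w) (hD : DP w) (hc : 4 ≤ (RR w).c)
    (s p p' t : IG (PM n)) (h : s * p * p' * t = mkw w) (hX : XX s) (hZ : ZZ t) :
    kap s (p * p') = kap s p + kap (s * p) p' := by
  obtain ⟨ws, rfl, h1, h2⟩ := hX
  obtain ⟨wp, rfl⟩ := mkw_surj p
  obtain ⟨wp', rfl⟩ := mkw_surj p'
  obtain ⟨wt, rfl, h3, h4⟩ := hZ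
  rw [← mkw_append, ← mkw_append, ← mkw_append] at h
  have hA' := (inv_eq h).1.2 hA
  have hD' := (DP_eq hn h.symm hA hc).1 hD
  have hws : (RR ws).c ≠ 0 := by omega
  obtain ⟨e1, e2⟩ := RR_append ws wp hws
  obtain ⟨e3, e4⟩ := RR_append (ws ++ wp) wp' e2
  have h5 := hD' (ws ++ wp ++ wp') wt rfl e4 h4
  rw [Adm.append_iff, Adm.append_iff, Adm.append_iff] at hA'
  have hm3 : rk (RR ws).m < 3 := RR_m_rk hn h2
  have h6 : 2 ≤ rk ((RR ws).m * vl wp * vl wp') := by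
    rw [← e1, ← e3, ← h5]; exact rk_mul_le_left _ _
  have h7 : rk ((RR ws).m * vl wp * vl wp') ≤ rk (RR ws).m :=
    (rk_mul_le_left _ _).trans (rk_mul_le_left _ _)
  have h8 : kap (mkw ws * mkw wp) (mkw wp') = kp ((RR ws).m * vl wp) (vl wp') := by
    rw [← mkw_append, kap_eq (Adm.append_iff.2 ⟨hA'.1.1.1, hA'.1.1.2⟩) e2, e1, ← vl_eq]
  rw [kap_eq h1 hws, kap_eq h1 hws, h8, map_mul, ← vl_eq, ← vl_eq]
  exact kp_coc hm3 (by omega) (by omega)

/-- **Main theorem**: no finite complete rewriting system for `IG (PM n)`, `n ≥ 5`. -/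
theorem no_complete (hn : 5 ≤ n) {A : Type*} [Finite A] (π : A → IG (PM n))
    (R : Set (List A × List A)) (hfin : R.Finite)
    (sound : ∀ l r, (l, r) ∈ R → pv π l = pv π r)
    (complete : ∀ w w' : List A, w ≠ [] → w' ≠ [] → pv π w = pv π w' → EqvGen (Step R) w w')
    (surj : ∀ u : Wd n, u ≠ [] → ∃ w : List A, w ≠ [] ∧ pv π w = mkw u)
    (wf : WellFounded (fun b a => Step R a b))
    (conf : ∀ a b c, ReflTransGen (Step R) a b → ReflTransGen (Step R) a c →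
      ∃ d, ReflTransGen (Step R) b d ∧ ReflTransGen (Step R) c d) : False := by
  have hn3 : 3 ≤ n := by omega
  -- five points
  obtain ⟨x0, x1, x2, x3, x4, D⟩ : ∃ x0 x1 x2 x3 x4 : Fin n, Dist5 x0 x1 x2 x3 x4 := by
    refine ⟨⟨0, by omega⟩, ⟨1, by omega⟩, ⟨2, by omega⟩, ⟨3, by omega⟩, ⟨4, by omega⟩, ?_⟩
    constructor <;> simp [Fin.ext_iff]
  obtain ⟨b, hvb, hab, hea, hae⟩ := exists_b D hn
  obtain ⟨wb, rfl⟩ := mkw_surj b
  set a := mkw (aw x0 x1 x2 x3) with ha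
  -- bounds
  obtain ⟨B, hB⟩ : ∃ B : ℕ, ∀ l r, (l, r) ∈ R → l.length ≤ B := by
    obtain ⟨B, hB⟩ := (hfin.image (fun p : List A × List A => p.1.length)).bddAbove
    exact ⟨B, fun l r h => hB ⟨(l, r), h, rfl⟩⟩
  choose om hom using fun a : A => mkw_surj (π a)
  obtain ⟨C, hC⟩ : ∃ C : ℕ, ∀ a, (RR (om a)).c ≤ C := by
    obtain ⟨C, hC⟩ := (Set.finite_range (fun a : A => (RR (om a)).c)).bddAbove
    exact ⟨C, fun a => hC ⟨a, rfl⟩⟩
  have hOm : ∀ c : List A, ∃ u : Wd n, mkw u = pv π c ∧ (RR u).c ≤ c.length * (C + 1) := by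
    intro c
    induction c with
    | nil =>
      refine ⟨[], by rw [mkw_nil, pv_nil], ?_⟩
      simp [RR, Rk.st0]
    | cons x c ih =>
      obtain ⟨u, hu, hu'⟩ := ih
      refine ⟨om x ++ u, by rw [mkw_append, hom, hu, pv_cons], ?_⟩
      have h1 := (RR_sub (om x) u).2
      have h2 := hC x
      rw [List.length_cons, add_mul, one_mul]
      omega
  set N : ℕ := 2 * B * (C + 1) + 10 with hN
  set e : IG (PM n) := mkw (w0 x0 x1 x2 x3 (N + 3)) with he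
  have hcw : N + 3 ≤ (RR (w0 x0 x1 x2 x3 (N + 3))).c := c_w0 D (N + 2)
  have hAw := adm_w0 D (N + 3)
  have hDw : DP (w0 x0 x1 x2 x3 (N + 3)) := DP_w0 D (N + 1)
  have O : Obs R π XX ZZ kap e B :=
    { sound := sound
      len := hB
      mono := fun s p t h hX => XX_mono hAw s p t h hX
      short := by
        intro c hc s t h
        obtain ⟨u, hu, hu'⟩ := hOm c
        obtain ⟨ws, rfl⟩ := mkw_surj s
        obtain ⟨wt, rfl⟩ := mkw_surj t
        rw [← hu, ← mkw_append, ← mkw_append] at h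
        have h1 := inv_eq h.symm
        have h2 := h1.1.1 hAw
        have h3 := (h1.2 hAw).1.2.1
        rw [Adm.append_iff, Adm.append_iff] at h2
        by_cases hX : 2 ≤ (RR ws).c
        · exact Or.inl ⟨ws, rfl, h2.1.1, hX⟩
        · by_cases hZ : (LL wt).c ≠ 0
          · exact Or.inr ⟨wt, rfl, h2.2, hZ⟩
          · exfalso
            have h4 : (RR wt).c = 0 := by
              by_contra h4
              exact hZ ((LL_c_iff hn3 wt).2 ((RR_c_iff hn3 wt).1 h4))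
            have h5 := (RR_sub (ws ++ u) wt).2
            have h6 := (RR_sub ws u).2
            have h7 : c.length * (C + 1) ≤ 2 * B * (C + 1) := Nat.mul_le_mul_right _ hc
            omega
      coc := fun s p p' t h hX hZ => kap_coc hn3 hAw hDw (by omega) s p p' t h hX hZ
      wf := wf
      conf := conf }
  -- words
  have hwb : wb ≠ [] := by
    rintro rfl
    rw [mkw_nil, map_one] at hvb
    have h1 := rk_bV D
    rw [← hvb, rk_one'] at h1
    omega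
  obtain ⟨X, hX0, hX⟩ := surj (ew x0 x1 x2 x3 ++ apow x0 x1 x2 x3 2) (by simp [ew])
  obtain ⟨Aw, hA0, hA⟩ := surj (aw x0 x1 x2 x3) (by simp [aw])
  obtain ⟨Bw, hB0, hBw⟩ := surj wb hwb
  obtain ⟨Mw, hM0, hM⟩ := surj (apow x0 x1 x2 x3 N) (by
    rw [hN, show 2 * B * (C + 1) + 10 = (2 * B * (C + 1) + 9) + 1 by ring, apow]
    simp [aw])
  obtain ⟨Zw, hZ0, hZ⟩ := surj (ew x0 x1 x2 x3) (by simp [ew])
  have hX' : pv π X = mkw (ew x0 x1 x2 x3) * a ^ 2 := by rw [hX, mkw_append, mkw_apow]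
  have hM' : pv π Mw = a ^ N := by rw [hM, mkw_apow]
  have hew : mkw (ew x0 x1 x2 x3) = io (ep x0 x1 x2 x3) := rfl
  have hcomm : Commute a (mkw wb) := hab
  have hRX : RR (ew x0 x1 x2 x3 ++ apow x0 x1 x2 x3 2) = ⟨aV x0 x1 x2 x3, 2, aV x0 x1 x2 x3 ^ 2⟩ :=
    RR_pow D 1
  have hAX : Adm (ew x0 x1 x2 x3 ++ apow x0 x1 x2 x3 2) :=
    Adm.append_iff.2 ⟨adm_ew D, adm_apow D 2⟩
  refine O.loop (x := X) (a := Aw) (b := Bw) (m := Mw) (z := Zw) ?_ ?_ ?_ ?_ ?_ ?_ ?_ ?_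
  · simp only [pv_append]
    rw [hX', hA, hM', hZ, he]
    unfold w0
    rw [mkw_append, mkw_append, mkw_apow, ← ha]
    have e1 : a ^ (N + 3) = a ^ 2 * (a * a ^ N) := by
      rw [← pow_succ', ← pow_add]; congr 1; ring
    rw [e1]
    simp only [mul_assoc]
  · rw [hX]
    exact ⟨_, rfl, hAX, by rw [hRX]⟩
  · rw [pv_append, hM, hZ, ← mkw_append]
    refine ⟨_, rfl, Adm.append_iff.2 ⟨adm_apow D N, adm_ew D⟩, ?_⟩
    have : N = (2 * B * (C + 1) + 9) + 1 := by rw [hN]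
    rw [this, LL_pow D]
    simp
  · apply complete
    · simp [hX0]
    · simp [hX0]
    · simp only [pv_append]
      rw [hX', hA, hBw, hew, ← ha]
      have e1 : io (ep x0 x1 x2 x3) * a ^ 2 * mkw wb = io (ep x0 x1 x2 x3) * mkw wb * a ^ 2 := by
        rw [mul_assoc, (hcomm.pow_left 2).eq, mul_assoc]
      rw [e1, ← hea, mul_assoc, mul_assoc, ← pow_succ, ← pow_succ']
  · apply complete
    · simp [hB0]
    · simp [hB0]
    · simp only [pv_append]
      rw [hBw, hM']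
      exact (hcomm.pow_left N).eq.symm
  · apply complete
    · simp [hB0]
    · simp [hA0]
    · simp only [pv_append]
      rw [hBw, hZ, hA, hew]
      exact hae.symm
  · apply complete
    · simp [hA0]
    · simp [hA0]
    · simp only [pv_append]
      rw [hA, hM', ← ha]
      exact (pow_mul_comm' a N)
  · rw [hX, hA, hBw, kap_eq hAX (by rw [hRX]; simp), kap_eq hAX (by rw [hRX]; simp), hRX, val_aw, hvb]
    simp only
    have e1 : aV x0 x1 x2 x3 ^ 2 = Es {x0, x1} := aV_pow D 0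
    rw [e1, kp_a D, kp_b D]
    exact zero_ne_one

end Pool.Agent.W2helper28.FC
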