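import Mathlib

/-!
# Greedy segmentation of words

Letters are multiplied with `op`. A word is cut greedily into segments whose product has rank at least
`r`. The state consists of the product of the current segment, the number of cuts, and the product of
all letters since the first cut. Up to left equivalence it is invariant under the relations
`e f = g` for basic pairs of idempotents.
-/

set_option autoImplicit false

namespace Pool.Agent.W2helper28.FC

/-- an associative operation with identity and rank function -/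
structure Rk (S : Type*) where
  op : S → S → S
  one : S
  rk : S → ℕ
  assoc : ∀ a b c, op (op a b) c = op a (op b c)
  one_op : ∀ a, op one a = a
  le_l : ∀ a b, rk (op a b) ≤ rk a
  le_r : ∀ a b, rk (op a b) ≤ rk b

namespace Rk

variable {S : Type*} (K : Rk S)

/-- left equivalence -/
def Leq (a b : S) : Prop := (∃ u, K.op u a = b) ∧ ∃ u, K.op u b = a

variable {K}

theorem Leq.refl (a : S) : K.Leq a a := ⟨⟨K.one, K.one_op a⟩, ⟨K.one, K.one_op a⟩⟩
theorem Leq.symm {a b : S} (h : K.Leq a b) : K.Leq b a := ⟨h.2, h.1⟩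
theorem Leq.trans {a b c : S} (h : K.Leq a b) (h' : K.Leq b c) : K.Leq a c := by
  obtain ⟨⟨u, hu⟩, ⟨v, hv⟩⟩ := h
  obtain ⟨⟨u', hu'⟩, ⟨v', hv'⟩⟩ := h'
  exact ⟨⟨K.op u' u, by rw [K.assoc, hu, hu']⟩, ⟨K.op v v', by rw [K.assoc, hv', hv]⟩⟩
theorem Leq.op {a b : S} (h : K.Leq a b) (c : S) : K.Leq (K.op a c) (K.op b c) := by
  obtain ⟨⟨u, hu⟩, ⟨v, hv⟩⟩ := h
  exact ⟨⟨u, by rw [← K.assoc, hu]⟩, ⟨v, by rw [← K.assoc, hv]⟩⟩
theorem Leq.rk_eq {a b : S} (h : K.Leq a b) : K.rk a = K.rk b := by
  obtain ⟨⟨u, hu⟩, ⟨v, hv⟩⟩ := h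
  apply le_antisymm
  · rw [← hv]; exact K.le_r _ _
  · rw [← hu]; exact K.le_r _ _

variable (K)

/-- product of a word -/
def pr (w : List S) : S := w.foldl K.op K.one

/-- state: product of the current segment, number of cuts, product since the first cut -/
structure St (S : Type*) where
  v : S
  c : ℕ
  m : S

variable (r : ℕ)

open Classical in
/-- reading a letter -/
noncomputable def stp (q : St S) (e : S) : St S :=
  if r ≤ K.rk (K.op q.v e) then ⟨K.op q.v e, q.c, K.op q.m e⟩
  else ⟨e, q.c + 1, if q.c = 0 then e else K.op q.m e⟩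

/-- reading a word -/
noncomputable def run (q : St S) (w : List S) : St S := w.foldl (K.stp r) q

/-- the initial state -/
def st0 : St S := ⟨K.one, 0, K.one⟩

/-- equivalence of states -/
def Seq (q q' : St S) : Prop := K.Leq q.v q'.v ∧ q.c = q'.c ∧ (q.c ≠ 0 → K.Leq q.m q'.m)

variable {K r}

@[simp] theorem run_nil (q : St S) : K.run r q [] = q := rfl
@[simp] theorem run_cons (q : St S) (e : S) (w : List S) :
    K.run r q (e :: w) = K.run r (K.stp r q e) w := rfl
@[simp] theorem run_append (q : St S) (u w : List S) :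
    K.run r q (u ++ w) = K.run r (K.run r q u) w := by simp [run, List.foldl_append]

theorem stp_pos {q : St S} {e : S} (h : r ≤ K.rk (K.op q.v e)) :
    K.stp r q e = ⟨K.op q.v e, q.c, K.op q.m e⟩ := by simp [stp, h]
theorem stp_neg {q : St S} {e : S} (h : ¬ r ≤ K.rk (K.op q.v e)) :
    K.stp r q e = ⟨e, q.c + 1, if q.c = 0 then e else K.op q.m e⟩ := by simp [stp, h]

theorem Seq.refl (q : St S) : K.Seq q q := ⟨Leq.refl _, rfl, fun _ => Leq.refl _⟩
theorem Seq.symm {q q' : St S} (h : K.Seq q q') : K.Seq q' q :=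
  ⟨h.1.symm, h.2.1.symm, fun h' => (h.2.2 (by rw [h.2.1]; exact h')).symm⟩
theorem Seq.trans {q q' q'' : St S} (h : K.Seq q q') (h' : K.Seq q' q'') : K.Seq q q'' :=
  ⟨h.1.trans h'.1, h.2.1.trans h'.2.1, fun h0 =>
    (h.2.2 h0).trans (h'.2.2 (by rw [← h.2.1]; exact h0))⟩

theorem Seq.stp {q q' : St S} (h : K.Seq q q') (e : S) : K.Seq (K.stp r q e) (K.stp r q' e) := by
  obtain ⟨h1, h2, h3⟩ := h
  have h4 := (h1.op e).rk_eq
  by_cases h5 : r ≤ K.rk (K.op q.v e)
  · rw [stp_pos h5, stp_pos (h4 ▸ h5)]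
    exact ⟨h1.op e, h2, fun h => (h3 h).op e⟩
  · rw [stp_neg h5, stp_neg (h4 ▸ h5)]
    refine ⟨Leq.refl _, by simp [h2], fun _ => ?_⟩
    by_cases h6 : q.c = 0
    · have h7 : q'.c = 0 := h2 ▸ h6
      simp only [h6, h7, if_true]
      exact Leq.refl _
    · have h7 : ¬ q'.c = 0 := h2 ▸ h6
      simp only [h6, h7, if_false]
      exact (h3 h6).op e

theorem Seq.run {q q' : St S} (h : K.Seq q q') (w : List S) :
    K.Seq (K.run r q w) (K.run r q' w) := by
  induction w generalizing q q' with
  | nil => exact h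
  | cons e w ih => exact ih (h.stp e)

/-- basic pairs -/
def Bas (K : Rk S) (e f : S) : Prop := K.op e f = e ∨ K.op e f = f ∨ K.op f e = e ∨ K.op f e = f

/-- invariance under the relations of basic pairs -/
theorem stp_basic {e f : S} (he : K.op e e = e) (hf : K.op f f = f) (hb : K.Bas e f)
    (hr : r ≤ K.rk (K.op e f)) (q : St S) :
    K.Seq (K.stp r (K.stp r q e) f) (K.stp r q (K.op e f)) := by
  by_cases h1 : r ≤ K.rk (K.op q.v e)
  · rw [stp_pos h1]
    by_cases h2 : r ≤ K.rk (K.op (K.op q.v e) f)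
    · have h3 : r ≤ K.rk (K.op q.v (K.op e f)) := by rw [← K.assoc]; exact h2
      rw [stp_pos (q := ⟨K.op q.v e, q.c, K.op q.m e⟩) h2, stp_pos h3]
      simp only [K.assoc]
      exact Seq.refl _
    · have h3 : ¬ r ≤ K.rk (K.op q.v (K.op e f)) := by rw [← K.assoc]; exact h2
      rw [stp_neg (q := ⟨K.op q.v e, q.c, K.op q.m e⟩) h2, stp_neg h3]
      have hl : K.Leq f (K.op e f) := by
        rcases hb with hb | hb | hb | hb
        · exact absurd (by rw [K.assoc, hb]; exact h1) h2
        · rw [hb]; exact Leq.refl _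
        · exfalso
          have h4 : K.op (K.op e f) e = e := by rw [K.assoc, hb, he]
          have h5 := K.le_l (K.op q.v (K.op e f)) e
          rw [K.assoc, h4] at h5
          exact h3 (h1.trans h5)
        · exact ⟨⟨e, rfl⟩, ⟨f, by rw [← K.assoc, hb, hf]⟩⟩
      refine ⟨hl, rfl, fun _ => ?_⟩
      by_cases h4 : q.c = 0
      · simp only [h4, if_true]; exact hl
      · simp only [h4, if_false, K.assoc]; exact Leq.refl _
  · have h3 : ¬ r ≤ K.rk (K.op q.v (K.op e f)) := by
      intro h3
      apply h1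
      have := K.le_l (K.op q.v e) f
      rw [K.assoc] at this
      exact h3.trans this
    rw [stp_neg h1, stp_pos (q := ⟨e, q.c + 1, if q.c = 0 then e else K.op q.m e⟩) hr, stp_neg h3]
    refine ⟨Leq.refl _, rfl, fun _ => ?_⟩
    by_cases h4 : q.c = 0
    · simp only [h4, if_true]; exact Leq.refl _
    · simp only [h4, if_false, K.assoc]; exact Leq.refl _

/-- invariance in words -/
theorem run_basic {e f : S} (he : K.op e e = e) (hf : K.op f f = f) (hb : K.Bas e f)
    (hr : r ≤ K.rk (K.op e f)) (q : St S) (u w : List S) :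
    K.Seq (K.run r q (u ++ [e, f] ++ w)) (K.run r q (u ++ [K.op e f] ++ w)) := by
  rw [run_append, run_append, run_append, run_append]
  apply Seq.run
  exact stp_basic he hf hb hr _

/-! ### the number of cuts -/

theorem stp_c (q : St S) (e : S) : q.c ≤ (K.stp r q e).c ∧ (K.stp r q e).c ≤ q.c + 1 := by
  by_cases h : r ≤ K.rk (K.op q.v e)
  · rw [stp_pos h]; simp
  · rw [stp_neg h]; simp

theorem run_c_le (q : St S) (w : List S) : q.c ≤ (K.run r q w).c := by
  induction w generalizing q with
  | nil => exact le_rfl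
  | cons e w ih => exact (stp_c q e).1.trans (ih _)

theorem run_c_ub (q : St S) (w : List S) : (K.run r q w).c ≤ q.c + w.length := by
  induction w generalizing q with
  | nil => exact le_rfl
  | cons e w ih =>
    have h1 := ih (K.stp r q e)
    have h2 := (stp_c (K := K) (r := r) q e).2
    rw [run_cons, List.length_cons]
    omega

/-- comparison of two runs -/
def Cmp (K : Rk S) (j : ℕ) (q q' : St S) : Prop :=
  (q.c = q'.c + j ∧ ∃ y, q.v = K.op y q'.v) ∨ (q.c = q'.c + j + 1 ∧ ∃ y, q'.v = K.op y q.v)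

theorem Cmp.stp {j : ℕ} {q q' : St S} (h : K.Cmp j q q') (e : S) :
    K.Cmp j (K.stp r q e) (K.stp r q' e) := by
  rcases h with ⟨h1, y, h2⟩ | ⟨h1, y, h2⟩
  · by_cases h3 : r ≤ K.rk (K.op q.v e)
    · have h4 : r ≤ K.rk (K.op q'.v e) := by
        rw [h2, K.assoc] at h3; exact h3.trans (K.le_r _ _)
      rw [stp_pos h3, stp_pos h4]
      exact Or.inl ⟨h1, y, by simp only [h2, K.assoc]⟩
    · by_cases h4 : r ≤ K.rk (K.op q'.v e)
      · rw [stp_neg h3, stp_pos h4]
        exact Or.inr ⟨by simp only [h1], q'.v, rfl⟩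
      · rw [stp_neg h3, stp_neg h4]
        exact Or.inl ⟨by simp only [h1]; omega, K.one, (K.one_op e).symm⟩
  · by_cases h4 : r ≤ K.rk (K.op q'.v e)
    · have h3 : r ≤ K.rk (K.op q.v e) := by
        rw [h2, K.assoc] at h4; exact h4.trans (K.le_r _ _)
      rw [stp_pos h3, stp_pos h4]
      exact Or.inr ⟨h1, y, by simp only [h2, K.assoc]⟩
    · by_cases h3 : r ≤ K.rk (K.op q.v e)
      · rw [stp_pos h3, stp_neg h4]
        exact Or.inl ⟨by simp only [h1]; omega, q.v, rfl⟩
      · rw [stp_neg h3, stp_neg h4]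
        exact Or.inr ⟨by simp only [h1]; omega, K.one, (K.one_op e).symm⟩

theorem Cmp.run {j : ℕ} {q q' : St S} (h : K.Cmp j q q') (w : List S) :
    K.Cmp j (K.run r q w) (K.run r q' w) := by
  induction w generalizing q q' with
  | nil => exact h
  | cons e w ih => exact ih (h.stp e)

variable (hone : ∀ a, K.op a K.one = a)

include hone in
/-- subadditivity of the number of cuts -/
theorem c_append (u w : List S) :
    (K.run r K.st0 w).c + (K.run r K.st0 u).c ≤ (K.run r K.st0 (u ++ w)).c ∧
      (K.run r K.st0 (u ++ w)).c ≤ (K.run r K.st0 w).c + (K.run r K.st0 u).c + 1 := by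
  have h : K.Cmp (K.run r K.st0 u).c (K.run r K.st0 u) K.st0 :=
    Or.inl ⟨by simp [st0], (K.run r K.st0 u).v, by simp [st0, hone]⟩
  have h1 := h.run (r := r) w
  rw [run_append]
  rcases h1 with ⟨h1, _⟩ | ⟨h1, _⟩ <;> omega

/-- invariant: before the first cut the state is the product, after the first cut both products
agree, after the second cut the product since the first cut has small rank -/
theorem inv (w : List S) (hr : r ≤ K.rk K.one) :
    ((K.run r K.st0 w).c = 0 → (K.run r K.st0 w).v = K.pr w ∧ r ≤ K.rk (K.pr w)) ∧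
    ((K.run r K.st0 w).c ≠ 0 → K.rk (K.pr w) < r) ∧
    ((K.run r K.st0 w).c = 1 → (K.run r K.st0 w).m = (K.run r K.st0 w).v) ∧
    (2 ≤ (K.run r K.st0 w).c → K.rk (K.run r K.st0 w).m < r) := by
  induction w using List.reverseRecOn with
  | nil => simp [st0, pr, hr]
  | append_singleton w e ih =>
    obtain ⟨i1, i2, i3, i4⟩ := ih
    have hpr : K.pr (w ++ [e]) = K.op (K.pr w) e := by simp [pr, List.foldl_append]
    rw [run_append, run_cons, run_nil, hpr]
    set q := K.run r K.st0 w with hq
    by_cases h : r ≤ K.rk (K.op q.v e)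
    · rw [stp_pos h]
      refine ⟨fun h0 => ?_, fun h0 => ?_, fun h0 => ?_, fun h0 => ?_⟩
      · simp only at h0 ⊢
        obtain ⟨j1, j2⟩ := i1 h0
        rw [← j1]; exact ⟨rfl, h⟩
      · exact (K.le_l _ _).trans_lt (i2 h0)
      · simp only at h0 ⊢; rw [i3 h0]
      · exact (K.le_l _ _).trans_lt (i4 h0)
    · rw [stp_neg h]
      refine ⟨fun h0 => ?_, fun h0 => ?_, fun h0 => ?_, fun h0 => ?_⟩
      · simp at h0
      · by_cases h1 : q.c = 0
        · rw [← (i1 h1).1]; exact not_le.1 h
        · exact (K.le_l _ _).trans_lt (i2 h1)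
      · simp only at h0 ⊢
        have h1 : q.c = 0 := by omega
        rw [if_pos h1]
      · simp only at h0 ⊢
        have h1 : q.c ≠ 0 := by omega
        rw [if_neg h1]
        by_cases h2 : q.c = 1
        · rw [i3 h2]; exact not_le.1 h
        · exact (K.le_l _ _).trans_lt (i4 (by omega))

theorem run_m {q : St S} (h : q.c ≠ 0) (w : List S) :
    (K.run r q w).m = w.foldl K.op q.m ∧ (K.run r q w).c ≠ 0 := by
  induction w generalizing q with
  | nil => exact ⟨rfl, h⟩
  | cons e w ih =>
    rw [run_cons, List.foldl_cons]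
    by_cases h1 : r ≤ K.rk (K.op q.v e)
    · rw [stp_pos h1]
      exact ih (q := ⟨K.op q.v e, q.c, K.op q.m e⟩) h
    · rw [stp_neg h1, if_neg h]
      exact ih (q := ⟨e, q.c + 1, K.op q.m e⟩) (Nat.succ_ne_zero _)

theorem foldl_pr (hone : ∀ a, K.op a K.one = a) (a : S) (w : List S) :
    w.foldl K.op a = K.op a (K.pr w) := by
  unfold pr
  induction w using List.reverseRecOn with
  | nil => simp [hone]
  | append_singleton w e ih =>
    simp only [List.foldl_append, List.foldl_cons, List.foldl_nil]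
    rw [ih, K.assoc]

end Rk

end Pool.Agent.W2helper28.FC
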